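import Mathlib

set_option autoImplicit false

namespace Pool.Agent.Run7.h961

/-- Numerical consequences of the hypotheses. -/
lemma numerics {n d : ℕ} (hn : 2 ≤ n) (hd : 2 ≤ d) {σ : ℝ} (hσ : 0 < σ)
    (hσ1 : σ ≤ 1 / (6 * Real.sqrt ((d : ℝ) * Real.log (n : ℝ))))
    (hn2 : 18 * (d : ℝ) * Real.log (1 / σ) ≤ Real.log n) :
    36 * σ ^ 2 * d * Real.log n ≤ 1 ∧ σ ^ 2 ≤ 1 / 3888 ∧ 4 ≤ Real.log (1 / σ) := by
  set L := Real.log n with hL
  have hn' : (2 : ℝ) ≤ n := by exact_mod_cast hn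
  have hd' : (2 : ℝ) ≤ d := by exact_mod_cast hd
  have hL2 : 0.69 ≤ L := by
    have h1 : Real.log 2 ≤ L := Real.log_le_log (by norm_num) hn'
    linarith [Real.log_two_gt_d9]
  have hLpos : 0 < L := by linarith
  have hs : 0 < Real.sqrt ((d : ℝ) * L) := Real.sqrt_pos.mpr (by positivity)
  have h36 : 36 * σ ^ 2 * d * L ≤ 1 := by
    rw [le_div_iff₀ (by positivity)] at hσ1
    have h1 : (σ * (6 * Real.sqrt ((d : ℝ) * L))) ^ 2 ≤ 1 := by
      have h0 : 0 ≤ σ * (6 * Real.sqrt ((d : ℝ) * L)) := by positivity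
      nlinarith
    have h2 : Real.sqrt ((d : ℝ) * L) ^ 2 = d * L := Real.sq_sqrt (by positivity)
    have h3 : (σ * (6 * Real.sqrt ((d : ℝ) * L))) ^ 2 = 36 * σ ^ 2 * Real.sqrt ((d : ℝ) * L) ^ 2 := by ring
    rw [h3, h2] at h1
    linarith
  have hdL : ∀ B : ℝ, 0 ≤ B → B ≤ L → 72 * B * σ ^ 2 ≤ 1 := by
    intro B hB0 hB
    have h1 : 72 * B * σ ^ 2 ≤ 36 * σ ^ 2 * d * L := by
      have h2 : 2 * B ≤ d * L := mul_le_mul hd' hB hB0 (by linarith)
      nlinarith [sq_nonneg σ]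
    linarith
  -- first step
  have s1 : 49 * σ ^ 2 ≤ 1 := by
    have := hdL 0.69 (by norm_num) hL2
    nlinarith [sq_nonneg σ]
  have s2 : 7 ≤ 1 / σ := by
    rw [le_div_iff₀ hσ]
    nlinarith
  have s3 : 1.5 ≤ Real.log (1 / σ) := by
    have h7 : Real.log 7 ≤ Real.log (1 / σ) := Real.log_le_log (by norm_num) s2
    have h8 : (1.5 : ℝ) ≤ Real.log 7 := by
      rw [Real.le_log_iff_exp_le (by norm_num)]
      have h9 : Real.exp 1.5 = Real.exp 1 * Real.exp (1/2) := by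
        rw [← Real.exp_add]; norm_num
      have h10 : Real.exp (1/2) ≤ 2 := by
        have h11 : Real.exp (1/2) ^ 2 = Real.exp 1 := by
          rw [← Real.exp_nat_mul]; norm_num
        have h12 := Real.exp_one_lt_d9
        nlinarith [Real.exp_pos (1/2 : ℝ)]
      rw [h9]
      have := Real.exp_one_lt_d9
      nlinarith [Real.exp_pos (1 : ℝ), Real.exp_pos (1/2 : ℝ)]
    linarith
  have s4 : 54 ≤ L := by nlinarith
  have s5 : σ ^ 2 ≤ 1 / 3888 := by
    have := hdL 54 (by norm_num) s4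
    linarith
  have s6 : 62 ≤ 1 / σ := by
    rw [le_div_iff₀ hσ]
    nlinarith
  have s7 : 4 ≤ Real.log (1 / σ) := by
    have h7 : Real.log 62 ≤ Real.log (1 / σ) := Real.log_le_log (by norm_num) s6
    have h8 : (4 : ℝ) ≤ Real.log 62 := by
      rw [Real.le_log_iff_exp_le (by norm_num)]
      have h9 : Real.exp 4 = Real.exp 1 ^ 4 := by
        rw [← Real.exp_nat_mul]; norm_num
      rw [h9]
      have h10 := Real.exp_one_lt_d9
      calc Real.exp 1 ^ 4 ≤ 2.7182818286 ^ 4 :=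
            pow_le_pow_left₀ (Real.exp_pos _).le h10.le 4
        _ ≤ 62 := by norm_num
    linarith
  exact ⟨h36, s5, s7⟩


/-- Basic size relations. -/
lemma sizes {d σ L l T D w : ℝ} (hd : 2 ≤ d) (hσ : 0 < σ) (hl : 4 ≤ l) (hD : D = 2 * d * l)
    (hLD : 9 * D ≤ L) (hT : 0 < T) (hT2 : T ^ 2 = 2 * L) (h36 : 36 * σ ^ 2 * d * L ≤ 1)
    (hw : 0 < w) (hw2 : w ^ 2 = d) :
    16 ≤ D ∧ 8 * d ≤ D ∧ 4 * l ≤ D ∧ 16 ≤ T ∧ 18 * D ≤ T ^ 2 ∧ 6 * σ * T ≤ 1 ∧
      4 * σ * w * T ≤ 0.95 := by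
  have h1 : 16 ≤ D := by rw [hD]; nlinarith
  have h2 : 8 * d ≤ D := by rw [hD]; nlinarith
  have h2' : 4 * l ≤ D := by rw [hD]; nlinarith
  have h3 : 288 ≤ T ^ 2 := by rw [hT2]; linarith
  have h4 : 16 ≤ T := by nlinarith
  have h5 : 18 * D ≤ T ^ 2 := by rw [hT2]; linarith
  have hσT : 18 * σ ^ 2 * d * T ^ 2 ≤ 1 := by rw [hT2]; linarith
  have h6 : 6 * σ * T ≤ 1 := by
    have h7 : 36 * σ ^ 2 * T ^ 2 ≤ 1 := by
      have h8 : 0 ≤ σ ^ 2 * T ^ 2 := by positivity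
      nlinarith
    have h0 : 0 ≤ 6 * σ * T := by positivity
    nlinarith
  have h9 : 4 * σ * w * T ≤ 0.95 := by
    have h10 : (4 * σ * w * T) ^ 2 ≤ 0.95 ^ 2 := by
      have : (4 * σ * w * T) ^ 2 = 16 / 18 * (18 * σ ^ 2 * d * T ^ 2) := by
        rw [← hw2]; ring
      rw [this]
      linarith
    have h0 : 0 ≤ 4 * σ * w * T := by positivity
    nlinarith
  exact ⟨h1, h2, h2', h4, h5, h6, h9⟩

/-- The grid size. -/
lemma grid_size {d : ℕ} {σ l T D w : ℝ} (hσ : 0 < σ)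
    (hD : D = 2 * d * l) (hT : 0 < T)
    (hw : 0 < w) (hσ2 : σ ^ 2 ≤ 1 / 3888) (hexpl : Real.exp l = 1 / σ)
    (h9 : 4 * σ * w * T ≤ 0.95) :
    0 < ⌈1 / (4 * σ ^ 2)⌉₊ ∧
    (2 * (⌈1 / (4 * σ ^ 2)⌉₊ : ℝ) + 1) ^ d ≤ Real.exp D ∧
    w / (⌈1 / (4 * σ ^ 2)⌉₊ : ℝ) ≤ 0.95 * (σ / T) := by
  set M : ℕ := ⌈1 / (4 * σ ^ 2)⌉₊ with hM
  have hM1 : 1 / (4 * σ ^ 2) ≤ M := Nat.le_ceil _
  have hM2 : (M : ℝ) < 1 / (4 * σ ^ 2) + 1 := Nat.ceil_lt_add_one (by positivity)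
  have hσ2inv : 3888 ≤ 1 / σ ^ 2 := by
    rw [le_div_iff₀ (by positivity)]
    linarith
  have hMpos : (0 : ℝ) < M := lt_of_lt_of_le (by positivity) hM1
  have hMpos' : 0 < M := by exact_mod_cast hMpos
  have h4 : 1 / (4 * σ ^ 2) = (1 / σ ^ 2) / 4 := by field_simp
  have hKbase : (2 * M + 1 : ℝ) ≤ 1 / σ ^ 2 := by
    rw [h4] at hM2
    linarith
  have hK : (2 * M + 1 : ℝ) ^ d ≤ Real.exp D := by
    have h1 : (1 / σ ^ 2 : ℝ) = Real.exp (2 * l) := by
      have h2 : Real.exp (2 * l) = Real.exp l ^ 2 := by rw [← Real.exp_nat_mul]; norm_num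
      rw [h2, hexpl]; field_simp
    calc (2 * M + 1 : ℝ) ^ d ≤ (1 / σ ^ 2) ^ d := pow_le_pow_left₀ (by positivity) hKbase d
      _ = Real.exp D := by
          rw [h1, ← Real.exp_nat_mul, hD]; congr 1; ring
  refine ⟨hMpos', hK, ?_⟩
  have h1 : w / M ≤ 4 * σ ^ 2 * w := by
    rw [div_le_iff₀ hMpos]
    have : 1 ≤ 4 * σ ^ 2 * M := by
      rw [div_le_iff₀ (by positivity)] at hM1
      linarith
    nlinarith
  have h2 : 4 * σ ^ 2 * w = σ / T * (4 * σ * w * T) := by field_simp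
  rw [h2] at h1
  have h3 : σ / T * (4 * σ * w * T) ≤ σ / T * 0.95 :=
    mul_le_mul_of_nonneg_left h9 (by positivity)
  linarith

/-- The two thresholds. -/
lemma thresholds {L T D : ℝ} (hD : 16 ≤ D) (hT : 16 ≤ T) (hT2 : T ^ 2 = 2 * L)
    (h18 : 18 * D ≤ T ^ 2) :
    T / 2 ≤ T - 3 * D / T ∧ T - 3 * D / T ≤ T ∧ T + D / T ≤ 2 * T ∧
    (T - 3 * D / T) ^ 2 / 2 ≤ L - 2.75 * D ∧ L + D ≤ (T + D / T) ^ 2 / 2 := by
  have hTpos : 0 < T := by linarith
  have h3 : 3 * D / T = 3 * (D / T) := by ring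
  have hDT : D / T ≤ T / 18 := by
    rw [div_le_iff₀ hTpos]; nlinarith
  have hDTpos : 0 < D / T := by positivity
  have hmul : T * (D / T) = D := by field_simp
  have hsq : (D / T) ^ 2 ≤ D / 18 := by
    have h5 : (D / T) ^ 2 = (D / T) * (D / T) := by ring
    have h6 : (D / T) * (D / T) ≤ (T / 18) * (D / T) := mul_le_mul_of_nonneg_right hDT hDTpos.le
    nlinarith
  rw [h3]
  refine ⟨by linarith, by linarith, by linarith, ?_, ?_⟩
  · nlinarith
  · nlinarith [sq_nonneg (D / T)]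

/-- First failure probability. -/
lemma fail_one {K q : ℝ} {L T D t l σ : ℝ} (hσ : 0 < σ) (hσ62 : 62 * σ ≤ 1) (hD : 16 ≤ D)
    (h4l : 4 * l ≤ D) (hTt : t ≤ T) (ht0 : 0 ≤ t)
    (h6 : 6 * σ * T ≤ 1) (hexpl : Real.exp l = 1 / σ)
    (ht2 : t ^ 2 / 2 ≤ L - 2.75 * D) (hK : K ≤ Real.exp D)
    (hq : Real.exp (L - D) / 2 ≤ q) :
    K * Real.exp (-(Real.exp (-t ^ 2 / 2) / (7 * (t + 1)) * q)) ≤ 0.05 := by
  have hp0 : Real.exp (-L + 2.375 * D) ≤ Real.exp (-t ^ 2 / 2) / (7 * (t + 1)) := by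
    have h1 : 7 * (t + 1) ≤ Real.exp (0.375 * D) := by
      have h2 : t + 1 ≤ 1 / σ := by
        rw [le_div_iff₀ hσ]
        nlinarith
      have h3 : (7 : ℝ) ≤ Real.exp 2 := by
        have h4 : Real.exp 2 = Real.exp 1 ^ 2 := by rw [← Real.exp_nat_mul]; norm_num
        rw [h4]
        have := Real.exp_one_gt_d9
        nlinarith
      calc 7 * (t + 1) ≤ Real.exp 2 * (1 / σ) := mul_le_mul h3 h2 (by linarith) (Real.exp_pos _).le
        _ = Real.exp (2 + l) := by rw [Real.exp_add, hexpl]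
        _ ≤ Real.exp (0.375 * D) := by
            apply Real.exp_le_exp.mpr
            linarith
    have h5 : Real.exp (-L + 2.375 * D) = Real.exp (-(L - 2.75 * D)) / Real.exp (0.375 * D) := by
      rw [← Real.exp_sub]; congr 1; ring
    rw [h5]
    apply div_le_div₀ (Real.exp_pos _).le _ (by positivity) h1
    apply Real.exp_le_exp.mpr
    have : -t ^ 2 / 2 = -(t ^ 2 / 2) := by ring
    rw [this]; linarith
  have hpq : D + 3 ≤ Real.exp (-t ^ 2 / 2) / (7 * (t + 1)) * q := by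
    have h1 : Real.exp (-L + 2.375 * D) * (Real.exp (L - D) / 2)
        ≤ Real.exp (-t ^ 2 / 2) / (7 * (t + 1)) * q :=
      mul_le_mul hp0 hq (by positivity) (by positivity)
    have h2 : Real.exp (-L + 2.375 * D) * (Real.exp (L - D) / 2) = Real.exp (1.375 * D) / 2 := by
      rw [← mul_div_assoc, ← Real.exp_add]; congr 2; ring
    have h3 : 2 * D + 6 ≤ Real.exp (1.375 * D) := by
      have := Real.quadratic_le_exp_of_nonneg (x := 1.375 * D) (by linarith)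
      nlinarith
    rw [h2] at h1
    linarith
  have hexp3 : Real.exp (-3) ≤ 0.05 := by
    have h1 : Real.exp (-3) = (Real.exp 1 ^ 3)⁻¹ := by
      rw [← Real.exp_nat_mul, ← Real.exp_neg]; norm_num
    rw [h1]
    have h2 : (20 : ℝ) ≤ Real.exp 1 ^ 3 := by
      have h3 := Real.exp_one_gt_d9
      calc (20 : ℝ) ≤ 2.7182818283 ^ 3 := by norm_num
        _ ≤ Real.exp 1 ^ 3 := pow_le_pow_left₀ (by norm_num) h3.le 3
    calc (Real.exp 1 ^ 3)⁻¹ ≤ (20 : ℝ)⁻¹ := inv_anti₀ (by norm_num) h2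
      _ = 0.05 := by norm_num
  calc K * Real.exp (-(Real.exp (-t ^ 2 / 2) / (7 * (t + 1)) * q))
      ≤ Real.exp D * Real.exp (-(D + 3)) := by
        apply mul_le_mul hK _ (Real.exp_pos _).le (Real.exp_pos _).le
        apply Real.exp_le_exp.mpr; linarith
    _ = Real.exp (-3) := by rw [← Real.exp_add]; congr 1; ring
    _ ≤ 0.05 := hexp3

/-- Second failure probability. -/
lemma fail_two {n d : ℕ} {L T D σ s R : ℝ} (hσ : 0 < σ) (hd : (2 : ℝ) ≤ d)
    (hD8 : 8 * (d : ℝ) ≤ D) (hs0 : 0 < s) (hs : s ≤ 2 * T)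
    (h6 : 6 * σ * T ≤ 1) (hexpL : Real.exp L = n) (hs2 : L + D ≤ s ^ 2 / 2)
    (hR : R = 1 + σ * s) :
    n * (Real.sqrt R ^ d * Real.exp (-(R - 1) ^ 2 / (2 * σ ^ 2))) ≤ 0.05 := by
  have hexp3 : Real.exp (-3) ≤ 0.05 := by
    have h1 : Real.exp (-3) = (Real.exp 1 ^ 3)⁻¹ := by
      rw [← Real.exp_nat_mul, ← Real.exp_neg]; norm_num
    rw [h1]
    have h2 : (20 : ℝ) ≤ Real.exp 1 ^ 3 := by
      have h3 := Real.exp_one_gt_d9
      calc (20 : ℝ) ≤ 2.7182818283 ^ 3 := by norm_num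
        _ ≤ Real.exp 1 ^ 3 := pow_le_pow_left₀ (by norm_num) h3.le 3
    calc (Real.exp 1 ^ 3)⁻¹ ≤ (20 : ℝ)⁻¹ := inv_anti₀ (by norm_num) h2
      _ = 0.05 := by norm_num
  have h1 : Real.sqrt R ≤ Real.exp (σ * s / 2) := by
    rw [Real.sqrt_le_left (Real.exp_pos _).le, ← Real.exp_nat_mul]
    have := Real.add_one_le_exp (σ * s)
    have h2 : Real.exp (((2 : ℕ) : ℝ) * (σ * s / 2)) = Real.exp (σ * s) := by congr 1; push_cast; ring
    rw [h2, hR]; linarith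
  have h2 : Real.sqrt R ^ d ≤ Real.exp (d * (σ * s / 2)) := by
    rw [Real.exp_nat_mul]
    exact pow_le_pow_left₀ (Real.sqrt_nonneg _) h1 d
  have h3 : -(R - 1) ^ 2 / (2 * σ ^ 2) = -(s ^ 2 / 2) := by
    rw [hR]; field_simp; ring
  rw [h3, ← hexpL]
  calc Real.exp L * (Real.sqrt R ^ d * Real.exp (-(s ^ 2 / 2)))
      ≤ Real.exp L * (Real.exp (d * (σ * s / 2)) * Real.exp (-(L + D))) := by
        apply mul_le_mul_of_nonneg_left _ (Real.exp_pos _).le
        apply mul_le_mul h2 _ (Real.exp_pos _).le (Real.exp_pos _).le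
        apply Real.exp_le_exp.mpr; linarith
    _ = Real.exp (d * (σ * s / 2) - D) := by
        rw [← Real.exp_add, ← Real.exp_add]; congr 1; ring
    _ ≤ Real.exp (-3) := by
        apply Real.exp_le_exp.mpr
        have h4 : (d : ℝ) * (σ * s / 2) ≤ d / 6 := by
          have h5 : σ * s / 2 ≤ 1 / 6 := by nlinarith
          have := mul_le_mul_of_nonneg_left h5 (show (0 : ℝ) ≤ d by linarith)
          linarith
        linarith
    _ ≤ 0.05 := hexp3

/-- The gap between the two radii. -/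
lemma radii {d σ T D l t s R δ r Q : ℝ} (hd : 2 ≤ d) (hσ : 0 < σ) (hl : 4 ≤ l) (hD : D = 2 * d * l)
    (hD16 : 16 ≤ D) (hT : 16 ≤ T) (h18 : 18 * D ≤ T ^ 2) (h6 : 6 * σ * T ≤ 1)
    (ht : t = T - 3 * D / T) (hs : s = T + D / T) (hR : R = 1 + σ * s)
    (hδ0 : 0 ≤ δ) (hδ : δ ≤ 0.95 * (σ / T))
    (hr : r = 1 - 2 * δ + σ * t * (1 - δ) - R * δ) (hQ : Q = σ * d * l / T) :
    0 < Q ∧ 0 ≤ σ * t ∧ 1 ≤ R ∧ δ < 1 ∧ 1 ≤ r ∧ 2 * R * (R - r) ≤ 23 * Q ∧ 23 * Q ≤ (1 / 3) ^ 2 := by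
  have hTpos : 0 < T := by linarith
  have hQpos : 0 < Q := by rw [hQ]; positivity
  have hDT : D / T ≤ T / 18 := by
    rw [div_le_iff₀ hTpos]; nlinarith
  have hDTpos : 0 < D / T := by positivity
  have h3 : 3 * D / T = 3 * (D / T) := by ring
  rw [h3] at ht
  have ht0 : T / 2 ≤ t := by linarith
  have htT : t ≤ T := by linarith
  have hsT : s ≤ 2 * T := by linarith
  have hspos : 0 < s := by linarith
  have hσt0 : 0 ≤ σ * t := mul_nonneg hσ.le (by linarith)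
  have hσtle : σ * t ≤ 1 / 6 := by nlinarith
  have hσs0 : 0 ≤ σ * s := by positivity
  have hσsle : σ * s ≤ 1 / 3 := by nlinarith
  have hR1 : 1 ≤ R := by linarith
  have hR43 : R ≤ 4 / 3 := by linarith
  have hσT0 : 0 < σ / T := by positivity
  have hσTs : σ / T ≤ 1 / 100 := by
    rw [div_le_iff₀ hTpos]
    nlinarith
  have hδ1 : δ < 1 := by linarith
  have hgap : R - r = 4 * (σ * (D / T)) + δ * (2 + σ * t + R) := by
    rw [hr]
    have e1 : σ * t = σ * T - 3 * (σ * (D / T)) := by rw [ht]; ring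
    have e2 : R = 1 + σ * T + σ * (D / T) := by rw [hR, hs]; ring
    linear_combination e2 - e1
  have h2 : δ * (2 + σ * t + R) ≤ 0.95 * (σ / T) * 3.5 :=
    mul_le_mul hδ (by linarith) (by linarith) (by linarith)
  have hδpos : 0 ≤ δ * (2 + σ * t + R) := mul_nonneg hδ0 (by linarith)
  have e4 : σ * (D / T) = 2 * Q := by rw [hQ, hD]; ring
  have h5 : σ / T * 16 ≤ 2 * Q := by
    have : σ * (D / T) = σ / T * D := by ring
    rw [← e4, this]
    exact mul_le_mul_of_nonneg_left hD16 hσT0.le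
  have hRr : R - r ≤ 8.6 * Q := by
    rw [hgap, e4]; linarith
  have hRr0 : 0 ≤ R - r := by
    rw [hgap, e4]; linarith
  have hr1 : 1 ≤ r := by
    have h1 : r = 1 + σ * t - δ * (2 + σ * t + R) := by rw [hr]; ring
    have h4 : 0.95 * (σ / T) * 3.5 ≤ σ * t := by
      have h5 : σ * t = σ / T * (t * T) := by field_simp
      have h6 : 4 ≤ t * T := by nlinarith
      have h7 := mul_le_mul_of_nonneg_left h6 hσT0.le
      rw [h5]
      linarith
    rw [h1]; linarith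
  refine ⟨hQpos, hσt0, hR1, hδ1, hr1, ?_, ?_⟩
  · calc 2 * R * (R - r) ≤ 2 * (4 / 3) * (8.6 * Q) := by
          apply mul_le_mul (by linarith) hRr hRr0 (by norm_num)
      _ ≤ 23 * Q := by linarith
  · have h1 : Q ≤ σ * T / 36 := by
      rw [hQ, div_le_div_iff₀ hTpos (by norm_num)]
      have h2 : 36 * (d * l) ≤ T ^ 2 := by
        have : D = 2 * (d * l) := by rw [hD]; ring
        rw [this] at h18
        linarith
      have h3 := mul_le_mul_of_nonneg_left h2 hσ.le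
      nlinarith
    linarith

/-- The final constant. -/
lemma constant {d σ T L l Q : ℝ} (hd : 2 ≤ d) (hσ : 0 < σ) (hl : 4 ≤ l) (hT : 0 < T)
    (hL : 0 < L) (hT2 : T ^ 2 = 2 * L) (hQ : Q = σ * d * l / T) :
    Real.sqrt (d * Real.sqrt L / (σ * l)) / 20 ≤ 0.9 * (d / (3 * Real.sqrt (23 * Q))) := by
  have hQpos : 0 < Q := by rw [hQ]; positivity
  have hsL : 0 < Real.sqrt L := Real.sqrt_pos.mpr hL
  have hsLT : Real.sqrt L ≤ T := by
    rw [Real.sqrt_le_left hT.le, hT2]; linarith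
  have h1 : Real.sqrt (d * Real.sqrt L / (σ * l)) ≤ Real.sqrt (d * T / (σ * l)) := by
    apply Real.sqrt_le_sqrt
    apply div_le_div_of_nonneg_right _ (by positivity)
    exact mul_le_mul_of_nonneg_left hsLT (by linarith)
  have h2 : Real.sqrt (d * T / (σ * l)) = d / Real.sqrt Q := by
    rw [eq_div_iff (Real.sqrt_pos.mpr hQpos).ne', ← Real.sqrt_mul (by positivity), hQ]
    have : d * T / (σ * l) * (σ * d * l / T) = d ^ 2 := by field_simp
    rw [this, Real.sqrt_sq (by linarith)]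
  have h3 : Real.sqrt (23 * Q) = Real.sqrt 23 * Real.sqrt Q := Real.sqrt_mul (by norm_num) _
  have h4 : Real.sqrt 23 ≤ 5 := by
    rw [Real.sqrt_le_left (by norm_num)]; norm_num
  have hsQ : 0 < Real.sqrt Q := Real.sqrt_pos.mpr hQpos
  have hs23 : 0 < Real.sqrt 23 := Real.sqrt_pos.mpr (by norm_num)
  rw [h3]
  calc Real.sqrt (d * Real.sqrt L / (σ * l)) / 20 ≤ d / Real.sqrt Q / 20 := by
        rw [← h2]; linarith
    _ ≤ 0.9 * (d / (3 * (5 * Real.sqrt Q))) := by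
        rw [div_div, ← mul_div_assoc, div_le_div_iff₀ (by positivity) (by positivity)]
        nlinarith [mul_pos (show 0 < d by linarith) hsQ]
    _ ≤ 0.9 * (d / (3 * (Real.sqrt 23 * Real.sqrt Q))) := by
        apply mul_le_mul_of_nonneg_left _ (by norm_num)
        apply div_le_div_of_nonneg_left (by linarith) (by positivity)
        nlinarith

end Pool.Agent.Run7.h961
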