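import Mathlib

set_option autoImplicit false

namespace Pool.Agent.Run7.h961

open scoped RealInnerProductSpace

variable {E : Type*} [NormedAddCommGroup E] [InnerProductSpace ℝ E]

/-- A row tight at `x` is close to the radial point `(R/‖x‖) x`. -/
lemma row_close {a x : E} {R r : ℝ} (hR : ‖a‖ ≤ R) (hx : ‖x‖ * r ≤ 1)
    (hax : ⟪a, x⟫ = 1) :
    ‖a - (R / ‖x‖) • x‖ ≤ Real.sqrt (2 * R * (R - r)) := by
  have hx0 : x ≠ 0 := by
    rintro rfl
    simp at hax
  have hxn : 0 < ‖x‖ := norm_pos_iff.mpr hx0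
  have hR0 : 0 ≤ R := (norm_nonneg a).trans hR
  apply Real.le_sqrt_of_sq_le
  rw [@norm_sub_sq ℝ E, inner_smul_right, norm_smul]
  simp only [RCLike.re_to_real]
  rw [hax, Real.norm_eq_abs, abs_of_nonneg (by positivity), div_mul_cancel₀ _ hxn.ne', mul_one]
  have h1 : r ≤ 1 / ‖x‖ := by rw [le_div_iff₀ hxn]; linarith
  have h2 : R * r ≤ R / ‖x‖ := by
    rw [div_eq_mul_one_div]
    exact mul_le_mul_of_nonneg_left h1 hR0
  have h3 : ‖a‖ ^ 2 ≤ R ^ 2 := by
    apply pow_le_pow_left₀ (norm_nonneg _) hR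
  nlinarith

/-- Counting common tight rows along a sequence. -/
lemma card_inter_ge {ι : Type*} [DecidableEq ι] (T : ℕ → Finset ι) {d L : ℕ}
    (hT : ∀ k ≤ L, (T k).card = d) (hadj : ∀ k < L, d ≤ ((T k) ∩ (T (k + 1))).card + 1)
    (i k : ℕ) (hik : i + k ≤ L) : d ≤ ((T i) ∩ (T (i + k))).card + k := by
  induction k with
  | zero =>
    simp [hT i (by omega)]
  | succ k ih =>
    have h1 := ih (by omega)
    have h2 := hadj (i + k) (by omega)
    have h3 : (T (i + k)).card = d := hT _ (by omega)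
    have h4 : ((T i ∩ T (i + k)) ∪ (T (i + k) ∩ T (i + k + 1))).card ≤ d := by
      rw [← h3]
      apply Finset.card_le_card
      intro x hx
      simp only [Finset.mem_union, Finset.mem_inter] at hx
      tauto
    have h5 := Finset.card_union_add_card_inter (T i ∩ T (i + k)) (T (i + k) ∩ T (i + k + 1))
    have h6 : ((T i ∩ T (i + k)) ∩ (T (i + k) ∩ T (i + k + 1))).card ≤ (T i ∩ T (i + (k + 1))).card := by
      apply Finset.card_le_card
      intro x hx
      simp only [Finset.mem_inter] at hx ⊢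
      refine ⟨hx.1.1, ?_⟩
      have := hx.2.2
      rwa [add_assoc] at this
    omega

/-- Along a walk whose vertices have exactly `d` tight rows and whose consecutive vertices share
`d-1` tight rows, `q (d-1)` steps move the radial point by at most `2 η q`. -/
lemma chain_dist {ι : Type*} [DecidableEq ι] (A : ι → E) (x : ℕ → E) (T : ℕ → Finset ι)
    {d L : ℕ} (hd : 2 ≤ d) {R r : ℝ} (hr : 0 < r) (hR : ∀ i, ‖A i‖ ≤ R)
    (hx : ∀ k ≤ L, ‖x k‖ * r ≤ 1) (htight : ∀ k ≤ L, ∀ i ∈ T k, ⟪A i, x k⟫ = 1)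
    (hT : ∀ k ≤ L, (T k).card = d) (hadj : ∀ k < L, d ≤ ((T k) ∩ (T (k + 1))).card + 1) :
    ∀ q k : ℕ, k ≤ L → k ≤ q * (d - 1) →
      dist ((R / ‖x 0‖) • x 0) ((R / ‖x k‖) • x k) ≤ 2 * Real.sqrt (2 * R * (R - r)) * q := by
  intro q
  induction q with
  | zero =>
    intro k _ hk
    have : k = 0 := by omega
    subst this
    simp
  | succ q ih =>
    intro k hkL hk
    set k' : ℕ := k - (d - 1) with hk'
    have h1 : k' ≤ q * (d - 1) := by
      have : (q + 1) * (d - 1) = q * (d - 1) + (d - 1) := by ring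
      omega
    have h2 := ih k' (by omega) h1
    obtain ⟨m, hm, hmd⟩ : ∃ m, k = k' + m ∧ m ≤ d - 1 := ⟨k - k', by omega, by omega⟩
    have h3 := card_inter_ge T hT hadj k' m (by omega)
    have h4 : 0 < (T k' ∩ T (k' + m)).card := by omega
    obtain ⟨i, hi⟩ := Finset.card_pos.mp h4
    rw [Finset.mem_inter, ← hm] at hi
    have e1 := row_close (hR i) (hx k' (by omega)) (htight k' (by omega) i hi.1)
    have e2 := row_close (hR i) (hx k hkL) (htight k hkL i hi.2)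
    have h5 : dist ((R / ‖x k'‖) • x k') ((R / ‖x k‖) • x k) ≤ 2 * Real.sqrt (2 * R * (R - r)) := by
      calc dist ((R / ‖x k'‖) • x k') ((R / ‖x k‖) • x k)
          ≤ dist ((R / ‖x k'‖) • x k') (A i) + dist (A i) ((R / ‖x k‖) • x k) := dist_triangle _ _ _
        _ ≤ Real.sqrt (2 * R * (R - r)) + Real.sqrt (2 * R * (R - r)) := by
            apply add_le_add
            · rw [dist_comm, dist_eq_norm]; exact e1
            · rw [dist_eq_norm]; exact e2
        _ = _ := by ring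
    calc dist ((R / ‖x 0‖) • x 0) ((R / ‖x k‖) • x k)
        ≤ dist ((R / ‖x 0‖) • x 0) ((R / ‖x k'‖) • x k') + dist ((R / ‖x k'‖) • x k') ((R / ‖x k‖) • x k) :=
          dist_triangle _ _ _
      _ ≤ 2 * Real.sqrt (2 * R * (R - r)) * q + 2 * Real.sqrt (2 * R * (R - r)) := add_le_add h2 h5
      _ = 2 * Real.sqrt (2 * R * (R - r)) * ((q + 1 : ℕ) : ℝ) := by push_cast; ring

/-- Lower bound on the length of such a walk joining opposite sides. -/
lemma chain_length {ι : Type*} [DecidableEq ι] (A : ι → E) (x : ℕ → E) (T : ℕ → Finset ι)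
    {d L : ℕ} (hd : 2 ≤ d) {R r : ℝ} (hr : 0 < r) (hR0 : 0 < R) (hR : ∀ i, ‖A i‖ ≤ R)
    (hx : ∀ k ≤ L, ‖x k‖ * r ≤ 1) (htight : ∀ k ≤ L, ∀ i ∈ T k, ⟪A i, x k⟫ = 1)
    (hT : ∀ k ≤ L, (T k).card = d) (hadj : ∀ k < L, d ≤ ((T k) ∩ (T (k + 1))).card + 1)
    (e : E) (he : ‖e‖ = 1) (h0 : 1 / R ≤ ⟪e, x 0⟫) (hL : ⟪e, x L⟫ ≤ -(1 / R)) :
    r * ((d : ℝ) - 1) ≤ Real.sqrt (2 * R * (R - r)) * (L + (d - 1)) := by
  set η : ℝ := Real.sqrt (2 * R * (R - r)) with hη
  have hd1 : (0 : ℝ) < (d : ℝ) - 1 := by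
    have : (2 : ℝ) ≤ d := by exact_mod_cast hd
    linarith
  set q : ℕ := L / (d - 1) + 1 with hq
  have hdn : 0 < d - 1 := by omega
  have hqL : L ≤ q * (d - 1) := by
    rw [hq]
    have := Nat.lt_div_mul_add (a := L) hdn
    have h2 : (L / (d - 1) + 1) * (d - 1) = L / (d - 1) * (d - 1) + (d - 1) := by ring
    omega
  have hdist := chain_dist A x T hd hr hR hx htight hT hadj q L le_rfl hqL
  -- the two endpoints are far apart
  have hx00 : x 0 ≠ 0 := by
    intro h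
    rw [h, inner_zero_right] at h0
    have : 0 < 1 / R := by positivity
    linarith
  have hxL0 : x L ≠ 0 := by
    intro h
    rw [h, inner_zero_right] at hL
    have : 0 < 1 / R := by positivity
    linarith
  have hn0 : 0 < ‖x 0‖ := norm_pos_iff.mpr hx00
  have hnL : 0 < ‖x L‖ := norm_pos_iff.mpr hxL0
  have a0 : r ≤ ⟪e, (R / ‖x 0‖) • x 0⟫ := by
    rw [inner_smul_right]
    have h1 : r ≤ 1 / ‖x 0‖ := by rw [le_div_iff₀ hn0]; linarith [hx 0 (Nat.zero_le _)]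
    calc r ≤ 1 / ‖x 0‖ := h1
      _ = R / ‖x 0‖ * (1 / R) := by field_simp
      _ ≤ R / ‖x 0‖ * ⟪e, x 0⟫ := mul_le_mul_of_nonneg_left h0 (by positivity)
  have aL : ⟪e, (R / ‖x L‖) • x L⟫ ≤ -r := by
    rw [inner_smul_right]
    have h1 : r ≤ 1 / ‖x L‖ := by rw [le_div_iff₀ hnL]; linarith [hx L le_rfl]
    calc R / ‖x L‖ * ⟪e, x L⟫ ≤ R / ‖x L‖ * (-(1 / R)) := mul_le_mul_of_nonneg_left hL (by positivity)
      _ = -(1 / ‖x L‖) := by field_simp
      _ ≤ -r := by linarith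
  have hfar : 2 * r ≤ dist ((R / ‖x 0‖) • x 0) ((R / ‖x L‖) • x L) := by
    rw [dist_eq_norm]
    calc 2 * r ≤ ⟪e, (R / ‖x 0‖) • x 0 - (R / ‖x L‖) • x L⟫ := by
          rw [inner_sub_right]; linarith
      _ ≤ ‖e‖ * ‖(R / ‖x 0‖) • x 0 - (R / ‖x L‖) • x L‖ := real_inner_le_norm _ _
      _ = _ := by rw [he, one_mul]
  have h1 : r ≤ η * q := by
    have := hfar.trans hdist
    nlinarith
  have hη0 : 0 ≤ η := Real.sqrt_nonneg _
  have hqle : (q : ℝ) * ((d : ℝ) - 1) ≤ L + (d - 1) := by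
    have h2 : L / (d - 1) * (d - 1) ≤ L := Nat.div_mul_le_self _ _
    have h3 : ((L / (d - 1) : ℕ) : ℝ) * ((d - 1 : ℕ) : ℝ) ≤ L := by exact_mod_cast h2
    have h4 : ((d - 1 : ℕ) : ℝ) = (d : ℝ) - 1 := by
      rw [Nat.cast_sub (by omega)]; simp
    rw [h4] at h3
    rw [hq]
    push_cast
    nlinarith
  calc r * ((d : ℝ) - 1) ≤ η * q * ((d : ℝ) - 1) := mul_le_mul_of_nonneg_right h1 hd1.le
    _ = η * (q * ((d : ℝ) - 1)) := by ring
    _ ≤ η * (L + (d - 1)) := mul_le_mul_of_nonneg_left hqle hη0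

end Pool.Agent.Run7.h961
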