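import Mathlib

set_option autoImplicit false
open MeasureTheory ProbabilityTheory

namespace Pool.Agent.Run7.h961

/-- Product Gaussian on `Fin d → ℝ` with centre `c` and coordinate variance `v`. -/
noncomputable def gpi {d : ℕ} (c : Fin d → ℝ) (v : NNReal) : Measure (Fin d → ℝ) :=
  Measure.pi (fun j : Fin d => gaussianReal (c j) v)

instance {d : ℕ} (c : Fin d → ℝ) (v : NNReal) : IsProbabilityMeasure (gpi c v) := by
  unfold gpi; infer_instance

/-- The law of a linear functional under the product Gaussian. -/
lemma gpi_map_dot {d : ℕ} (c : Fin d → ℝ) (v : NNReal) (y : Fin d → ℝ) :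
    (gpi c v).map (fun a => ∑ j, a j * y j)
      = gaussianReal (∑ j, c j * y j) (v * Real.toNNReal (∑ j, y j ^ 2)) := by
  have h1 : ∀ j : Fin d, HasGaussianLaw (fun a : Fin d → ℝ => a j * y j) (gpi c v) := by
    intro j
    have hmap : (gpi c v).map (fun a : Fin d → ℝ => a j) = gaussianReal (c j) v := by
      unfold gpi
      exact (measurePreserving_eval (fun j : Fin d => gaussianReal (c j) v) j).map_eq
    have h2 : HasGaussianLaw (fun a : Fin d → ℝ => a j) (gpi c v) := by
      constructor
      rw [hmap]; infer_instance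
    have h3 := h2.fun_smul (y j)
    refine h3.congr ?_
    filter_upwards with a
    simp [mul_comm]
  have hind : iIndepFun (fun (j : Fin d) (a : Fin d → ℝ) => a j * y j) (gpi c v) := by
    unfold gpi
    exact iIndepFun_pi (X := fun (j : Fin d) (x : ℝ) => x * y j)
      (fun j => by fun_prop)
  have hsum := iIndepFun.hasGaussianLaw_fun_sum h1 hind
  have hev : ∀ j : Fin d, HasLaw (fun a : Fin d → ℝ => a j * y j)
      (gaussianReal (c j * y j) (v * Real.toNNReal ((y j)^2))) (gpi c v) := by
    intro j
    refine ⟨(h1 j).aemeasurable, ?_⟩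
    have hmap : (gpi c v).map (fun a : Fin d → ℝ => a j) = gaussianReal (c j) v := by
      unfold gpi
      exact (measurePreserving_eval (fun j : Fin d => gaussianReal (c j) v) j).map_eq
    have : (fun a : Fin d → ℝ => a j * y j) = (fun x : ℝ => x * y j) ∘ (fun a : Fin d → ℝ => a j) := rfl
    rw [this, ← Measure.map_map (by fun_prop) (by fun_prop), hmap, gaussianReal_map_mul_const]
    congr 1
    · ring
    · rw [mul_comm]
      congr 1
      ext
      simp [Real.coe_toNNReal _ (sq_nonneg (y j))]
  rw [hsum.map_eq_gaussianReal]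
  have hint : ∀ j : Fin d, Integrable (fun a : Fin d → ℝ => a j * y j) (gpi c v) := fun j =>
    (h1 j).integrable
  have hmean : (∫ a, ∑ j, a j * y j ∂(gpi c v)) = ∑ j, c j * y j := by
    rw [integral_finsetSum _ (fun j _ => hint j)]
    refine Finset.sum_congr rfl fun j _ => ?_
    rw [(hev j).integral_eq]
    simp
  have hvar : Var[fun a : Fin d → ℝ => ∑ j, a j * y j; gpi c v] = v * ∑ j, y j ^ 2 := by
    have := IndepFun.variance_sum (μ := gpi c v) (s := Finset.univ)
      (X := fun (j : Fin d) (a : Fin d → ℝ) => a j * y j)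
      (fun j _ => (h1 j).memLp_two) (fun i _ j _ hij => hind.indepFun hij)
    have h4 : (∑ j : Fin d, fun a : Fin d → ℝ => a j * y j) = fun a : Fin d → ℝ => ∑ j, a j * y j := by
      ext a; simp
    rw [h4] at this
    rw [this, Finset.mul_sum]
    refine Finset.sum_congr rfl fun j _ => ?_
    rw [(hev j).variance_eq]
    simp [Real.coe_toNNReal _ (sq_nonneg (y j))]
  rw [hmean, hvar]
  congr 1
  rw [Real.toNNReal_mul (by positivity)]
  simp

end Pool.Agent.Run7.h961
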