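import Mathlib
import Pool.Agent.Run7.h961.Gauss

set_option autoImplicit false
open MeasureTheory ProbabilityTheory

namespace Pool.Agent.Run7.h961

/-- A hyperplane not through the origin is null for the product Gaussian. -/
lemma gpi_hyperplane {d : ℕ} (c : Fin d → ℝ) {v : NNReal} (hv : v ≠ 0) (y : Fin d → ℝ) {D : ℝ}
    (hD : D ≠ 0) : gpi c v {w | ∑ k, w k * y k = D} = 0 := by
  by_cases hy : ∑ k, y k ^ 2 = 0
  · have hy0 : ∀ k, y k = 0 := by
      intro k
      have := (Finset.sum_eq_zero_iff_of_nonneg (fun k _ => sq_nonneg (y k))).mp hy k (Finset.mem_univ k)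
      simpa using this
    have : {w : Fin d → ℝ | ∑ k, w k * y k = D} = ∅ := by
      ext w
      simp [hy0, hD.symm]
    rw [this, measure_empty]
  · have hpos : 0 < ∑ k, y k ^ 2 :=
      lt_of_le_of_ne (Finset.sum_nonneg fun k _ => sq_nonneg (y k)) (Ne.symm hy)
    have hmeas : Measurable (fun w : Fin d → ℝ => ∑ k, w k * y k) := by fun_prop
    have h1 : {w : Fin d → ℝ | ∑ k, w k * y k = D} = (fun w : Fin d → ℝ => ∑ k, w k * y k) ⁻¹' {D} := by
      ext w; simp
    rw [h1, ← Measure.map_apply hmeas (measurableSet_singleton D), gpi_map_dot]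
    have hne : v * Real.toNNReal (∑ k, y k ^ 2) ≠ 0 :=
      mul_ne_zero hv (by simpa using hpos)
    have := nullSingletonClass_gaussianReal (μ := ∑ k, c k * y k) hne
    exact measure_singleton D

/-- The exceptional set attached to `d` rows and one more row. -/
def badSet {n d : ℕ} (b : Fin d → Fin n) (j : Fin n) : Set (Fin n → Fin d → ℝ) :=
  {a | (Matrix.of fun k l => a (b k) l : Matrix (Fin d) (Fin d) ℝ).det ≠ 0 ∧
    ∑ k, a j k * ((Matrix.of fun k l => a (b k) l : Matrix (Fin d) (Fin d) ℝ).adjugate.mulVec
      (fun _ => (1 : ℝ))) k = (Matrix.of fun k l => a (b k) l : Matrix (Fin d) (Fin d) ℝ).det}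

lemma badSet_measurable {n d : ℕ} (b : Fin d → Fin n) (j : Fin n) : MeasurableSet (badSet b j) := by
  have hA : Continuous fun a : Fin n → Fin d → ℝ =>
      (Matrix.of fun k l => a (b k) l : Matrix (Fin d) (Fin d) ℝ) := by
    refine continuous_matrix fun k l => ?_
    simp only [Matrix.of_apply]
    fun_prop
  have hdet : Continuous fun a : Fin n → Fin d → ℝ =>
      (Matrix.of fun k l => a (b k) l : Matrix (Fin d) (Fin d) ℝ).det := hA.matrix_det
  have hadj : Continuous fun a : Fin n → Fin d → ℝ =>
      (Matrix.of fun k l => a (b k) l : Matrix (Fin d) (Fin d) ℝ).adjugate := hA.matrix_adjugate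
  have hvec : Continuous fun a : Fin n → Fin d → ℝ =>
      (Matrix.of fun k l => a (b k) l : Matrix (Fin d) (Fin d) ℝ).adjugate.mulVec
        (fun _ => (1 : ℝ)) := hadj.matrix_mulVec continuous_const
  have hsum : Continuous fun a : Fin n → Fin d → ℝ =>
      ∑ k, a j k * ((Matrix.of fun k l => a (b k) l : Matrix (Fin d) (Fin d) ℝ).adjugate.mulVec
      (fun _ => (1 : ℝ))) k := by
    refine continuous_finsetSum _ fun k _ => ?_
    exact ((continuous_apply k).comp (continuous_apply j)).mul ((continuous_apply k).comp hvec)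
  have h1 : MeasurableSet {a : Fin n → Fin d → ℝ |
      (Matrix.of fun k l => a (b k) l : Matrix (Fin d) (Fin d) ℝ).det = 0} :=
    (isClosed_eq hdet continuous_const).measurableSet
  have h2 : MeasurableSet {a : Fin n → Fin d → ℝ |
      ∑ k, a j k * ((Matrix.of fun k l => a (b k) l : Matrix (Fin d) (Fin d) ℝ).adjugate.mulVec
      (fun _ => (1 : ℝ))) k = (Matrix.of fun k l => a (b k) l : Matrix (Fin d) (Fin d) ℝ).det} :=
    (isClosed_eq hsum hdet).measurableSet
  have : badSet b j = {a : Fin n → Fin d → ℝ |
      (Matrix.of fun k l => a (b k) l : Matrix (Fin d) (Fin d) ℝ).det = 0}ᶜ ∩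
      {a : Fin n → Fin d → ℝ |
      ∑ k, a j k * ((Matrix.of fun k l => a (b k) l : Matrix (Fin d) (Fin d) ℝ).adjugate.mulVec
      (fun _ => (1 : ℝ))) k = (Matrix.of fun k l => a (b k) l : Matrix (Fin d) (Fin d) ℝ).det} := by
    ext a; simp [badSet]
  rw [this]
  exact h1.compl.inter h2

lemma badSet_null {n d : ℕ} (c : Fin n → Fin d → ℝ) {v : NNReal} (hv : v ≠ 0)
    (b : Fin d → Fin n) (j : Fin n) (hj : ∀ k, b k ≠ j) :
    Measure.pi (fun i : Fin n => gpi (c i) v) (badSet b j) = 0 := by
  have hm := badSet_measurable b j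
  rw [← lintegral_indicator_one hm]
  have h0 : ∫⁻ _a : Fin n → Fin d → ℝ, (0 : ENNReal) ∂(Measure.pi (fun i : Fin n => gpi (c i) v)) = 0 := by
    simp
  rw [← nonpos_iff_eq_zero, ← h0]
  refine lintegral_le_of_lmarginal_le {j} (measurable_const.indicator hm) measurable_const ?_
  intro a
  rw [lmarginal_singleton, lmarginal_singleton]
  simp only [lintegral_zero, nonpos_iff_eq_zero]
  have hupd : ∀ w : Fin d → ℝ, (fun k l => (Function.update a j w) (b k) l) = fun k l => a (b k) l := by
    intro w
    ext k l
    rw [Function.update_of_ne (hj k)]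
  set A : Matrix (Fin d) (Fin d) ℝ := Matrix.of fun k l => a (b k) l with hA
  by_cases hdet : A.det = 0
  · have : ∀ w : Fin d → ℝ, (badSet b j).indicator (1 : (Fin n → Fin d → ℝ) → ENNReal)
        (Function.update a j w) = 0 := by
      intro w
      apply Set.indicator_of_notMem
      intro hw
      apply hw.1
      rw [hupd w]
      exact hdet
    simp [this]
  · have hsub : ∀ w : Fin d → ℝ, (badSet b j).indicator (1 : (Fin n → Fin d → ℝ) → ENNReal)
        (Function.update a j w) ≤
        Set.indicator {w : Fin d → ℝ | ∑ k, w k * (A.adjugate.mulVec (fun _ => (1 : ℝ))) k = A.det}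
          1 w := by
      intro w
      by_cases hw : Function.update a j w ∈ badSet b j
      · have h2 := hw.2
        rw [hupd w] at h2
        simp only [Function.update_self] at h2
        rw [Set.indicator_of_mem hw, Set.indicator_of_mem]
        · simp
        · exact h2
      · rw [Set.indicator_of_notMem hw]; simp
    refine le_antisymm ?_ bot_le
    refine (lintegral_mono hsub).trans ?_
    have hms : MeasurableSet {w : Fin d → ℝ | ∑ k, w k * (A.adjugate.mulVec (fun _ => (1 : ℝ))) k = A.det} :=
      (isClosed_eq (by fun_prop) continuous_const).measurableSet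
    rw [lintegral_indicator_one hms, gpi_hyperplane (c j) hv _ hdet]

/-- Off the exceptional sets, a vertex has exactly `d` tight rows. -/
lemma card_tight_of_good {n d : ℕ} (a : Fin n → Fin d → ℝ)
    (hgood : ∀ (b : Fin d → Fin n) (j : Fin n), (∀ k, b k ≠ j) → a ∉ badSet b j)
    {x : Fin d → ℝ} (hx : Submodule.span ℝ (a '' {i | ∑ j, a i j * x j = 1}) = ⊤) :
    (Finset.univ.filter fun i => ∑ j, a i j * x j = 1).card = d := by
  classical
  set T : Finset (Fin n) := Finset.univ.filter fun i => ∑ j, a i j * x j = 1 with hT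
  -- choose a basis among the tight rows
  obtain ⟨s, hs, hspan, hli⟩ := exists_linearIndependent ℝ (a '' {i | ∑ j, a i j * x j = 1})
  have hsfin : s.Finite := (Set.toFinite _).subset hs
  have : Fintype s := hsfin.fintype
  have hcard : Fintype.card s = d := by
    have hb : Submodule.span ℝ (Set.range ((↑) : s → (Fin d → ℝ))) = ⊤ := by
      rw [Subtype.range_coe, hspan, hx]
    have := (Module.Basis.mk hli hb.ge)
    have h2 := Module.finrank_eq_card_basis this
    simpa using h2.symm
  have hch : ∀ y : s, ∃ i : Fin n, (∑ j, a i j * x j = 1) ∧ a i = y := by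
    intro y
    obtain ⟨i, hi, hiy⟩ := hs y.2
    exact ⟨i, hi, hiy⟩
  choose g hg1 hg2 using hch
  have eqv : Fin d ≃ s := (Fintype.equivFinOfCardEq hcard).symm
  set b : Fin d → Fin n := fun k => g (eqv k) with hb
  have hginj : Function.Injective g := by
    intro y z hyz
    apply Subtype.ext
    rw [← hg2 y, ← hg2 z, hyz]
  have hbinj : Function.Injective b := hginj.comp eqv.injective
  have hbT : ∀ k, ∑ j, a (b k) j * x j = 1 := fun k => hg1 _
  have hge : d ≤ T.card := by
    have h1 : (Finset.univ.image b).card = d := by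
      rw [Finset.card_image_of_injective _ hbinj]; simp
    rw [← h1]
    apply Finset.card_le_card
    intro i hi
    simp only [Finset.mem_image, Finset.mem_univ, true_and] at hi
    obtain ⟨k, rfl⟩ := hi
    simp [hT, hbT k]
  refine le_antisymm ?_ hge
  by_contra hlt
  push Not at hlt
  -- an extra tight row
  have hex : ∃ j ∈ T, ∀ k, b k ≠ j := by
    by_contra hno
    push Not at hno
    have : T ⊆ Finset.univ.image b := by
      intro j hj
      obtain ⟨k, hk⟩ := hno j hj
      simp only [Finset.mem_image, Finset.mem_univ, true_and]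
      exact ⟨k, hk⟩
    have h1 := Finset.card_le_card this
    rw [Finset.card_image_of_injective _ hbinj] at h1
    simp at h1
    omega
  obtain ⟨j, hjT, hjb⟩ := hex
  apply hgood b j hjb
  set A : Matrix (Fin d) (Fin d) ℝ := Matrix.of fun k l => a (b k) l with hA
  have hrow : A.row = fun k => ((eqv k : s) : Fin d → ℝ) := by
    ext k l
    simp [hA, Matrix.row, hb, hg2]
  have hdet : A.det ≠ 0 := by
    have h1 : LinearIndependent ℝ A.row := by
      rw [hrow]
      exact hli.comp _ eqv.injective
    rw [Matrix.linearIndependent_rows_iff_isUnit] at h1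
    rw [Matrix.isUnit_iff_isUnit_det] at h1
    exact h1.ne_zero
  have hAx : A.mulVec x = fun _ => (1 : ℝ) := by
    ext k
    simp only [hA, Matrix.mulVec, dotProduct, Matrix.of_apply]
    exact hbT k
  refine ⟨hdet, ?_⟩
  have hadj : A.adjugate.mulVec (fun _ => (1 : ℝ)) = A.det • x := by
    rw [← hAx, Matrix.mulVec_mulVec, Matrix.adjugate_mul, Matrix.smul_mulVec, Matrix.one_mulVec]
  change ∑ k, a j k * (A.adjugate.mulVec (fun _ => (1 : ℝ))) k = A.det
  rw [hadj]
  have hj1 : ∑ k, a j k * x k = 1 := by
    have := hjT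
    simp only [hT, Finset.mem_filter, Finset.mem_univ, true_and] at this
    exact this
  calc ∑ k, a j k * (A.det • x) k = A.det * ∑ k, a j k * x k := by
        rw [Finset.mul_sum]
        refine Finset.sum_congr rfl fun k _ => ?_
        simp only [Pi.smul_apply, smul_eq_mul]; ring
    _ = A.det := by rw [hj1, mul_one]

end Pool.Agent.Run7.h961
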