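import Mathlib

set_option autoImplicit false
open Filter Topology

namespace Pool.Agent.Run7.h961

/-- At an extreme point of the polyhedron the tight rows span. -/
lemma span_tight_of_extreme {n d : ℕ} (a : Fin n → Fin d → ℝ) {x : Fin d → ℝ}
    (hx : x ∈ Set.extremePoints ℝ {x : Fin d → ℝ | ∀ i, ∑ j, a i j * x j ≤ 1}) :
    Submodule.span ℝ (a '' {i | ∑ j, a i j * x j = 1}) = ⊤ := by
  by_contra hne
  have hlt : Submodule.span ℝ (a '' {i | ∑ j, a i j * x j = 1}) < ⊤ := lt_top_iff_ne_top.mpr hne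
  obtain ⟨f, hf0, hf⟩ := Submodule.exists_le_ker_of_lt_top _ hlt
  set y : Fin d → ℝ := fun j => f (Pi.single j 1) with hy
  have hfy : ∀ z : Fin d → ℝ, f z = ∑ j, z j * y j := by
    intro z
    have hz : z = ∑ j, z j • (Pi.single j (1 : ℝ) : Fin d → ℝ) := by
      ext k
      simp [Finset.sum_apply, Pi.single_apply]
    conv_lhs => rw [hz]
    rw [map_sum]
    refine Finset.sum_congr rfl fun j _ => ?_
    rw [map_smul, smul_eq_mul]
  have hy0 : y ≠ 0 := by
    intro h
    apply hf0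
    ext z
    simp [hy] at h
    have := congrFun h
    simp at this ⊢
    rw [this]
  have htight : ∀ i, ∑ j, a i j * x j = 1 → ∑ j, a i j * y j = 0 := by
    intro i hi
    rw [← hfy]
    have : a i ∈ Submodule.span ℝ (a '' {i | ∑ j, a i j * x j = 1}) :=
      Submodule.subset_span ⟨i, hi, rfl⟩
    exact LinearMap.mem_ker.mp (hf this)
  have hxP : ∀ i, ∑ j, a i j * x j ≤ 1 := hx.1
  have hsum : ∀ (i : Fin n) (t : ℝ), ∑ j, a i j * (x j + t * y j)
      = ∑ j, a i j * x j + t * ∑ j, a i j * y j := by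
    intro i t
    rw [Finset.mul_sum, ← Finset.sum_add_distrib]
    refine Finset.sum_congr rfl fun j _ => ?_
    ring
  have hev : ∀ᶠ t in 𝓝 (0 : ℝ), ∀ i, ∑ j, a i j * (x j + t * y j) ≤ 1 := by
    rw [eventually_all]
    intro i
    by_cases hi : ∑ j, a i j * x j = 1
    · filter_upwards with t
      rw [hsum, hi, htight i hi]; simp
    · have hlt : ∑ j, a i j * x j < 1 := lt_of_le_of_ne (hxP i) hi
      have hc : Continuous fun t : ℝ => ∑ j, a i j * (x j + t * y j) := by fun_prop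
      have h0 : (fun t : ℝ => ∑ j, a i j * (x j + t * y j)) 0 < 1 := by simpa using hlt
      exact (hc.continuousAt.eventually_lt continuousAt_const h0).mono fun t ht => ht.le
  have hev2 : ∀ᶠ t in 𝓝 (0 : ℝ), ∀ i, ∑ j, a i j * (x j + (-t) * y j) ≤ 1 := by
    have hneg : Tendsto (fun t : ℝ => -t) (𝓝 0) (𝓝 0) := by
      have := (continuous_neg (G := ℝ)).tendsto 0
      simpa using this
    exact hneg.eventually hev
  have hev3 : ∀ᶠ t in 𝓝[>] (0 : ℝ), (∀ i, ∑ j, a i j * (x j + t * y j) ≤ 1) ∧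
      (∀ i, ∑ j, a i j * (x j + (-t) * y j) ≤ 1) ∧ 0 < t :=
    ((hev.filter_mono nhdsWithin_le_nhds).and
      ((hev2.filter_mono nhdsWithin_le_nhds).and self_mem_nhdsWithin))
  obtain ⟨t, ht1, ht2, ht0⟩ := hev3.exists
  have hmem : x ∈ openSegment ℝ (fun j => x j + t * y j) (fun j => x j + (-t) * y j) := by
    refine ⟨1/2, 1/2, by norm_num, by norm_num, by norm_num, ?_⟩
    ext j
    simp only [Pi.add_apply, Pi.smul_apply, smul_eq_mul]
    ring
  have := hx.2 (x₁ := fun j => x j + t * y j) ht1 (x₂ := fun j => x j + (-t) * y j) ht2 hmem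
  apply hy0
  ext j
  have h1 := congrFun this j
  simp at h1
  rcases h1 with h1 | h1
  · exact absurd h1 ht0.ne'
  · simpa using h1

/-- In a bounded polyhedron, every feasible value of a linear functional is reached or beaten at a
vertex. -/
lemma exists_vertex {n d : ℕ} (a : Fin n → Fin d → ℝ) {B : ℝ}
    (hB : ∀ x : Fin d → ℝ, (∀ i, ∑ j, a i j * x j ≤ 1) → ‖x‖ ≤ B)
    (e y : Fin d → ℝ) (hy : ∀ i, ∑ j, a i j * y j ≤ 1) :
    ∃ x : Fin d → ℝ, (∀ i, ∑ j, a i j * x j ≤ 1) ∧
      Submodule.span ℝ (a '' {i | ∑ j, a i j * x j = 1}) = ⊤ ∧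
      ∑ j, e j * y j ≤ ∑ j, e j * x j := by
  set P : Set (Fin d → ℝ) := {x : Fin d → ℝ | ∀ i, ∑ j, a i j * x j ≤ 1} with hP
  have hclosed : IsClosed P := by
    have : P = ⋂ i, {x : Fin d → ℝ | ∑ j, a i j * x j ≤ 1} := by
      ext x; simp [hP]
    rw [this]
    apply isClosed_iInter
    intro i
    exact isClosed_le (by fun_prop) continuous_const
  have hbdd : Bornology.IsBounded P := by
    apply (Metric.isBounded_closedBall (x := (0 : Fin d → ℝ)) (r := B)).subset
    intro x hx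
    rw [mem_closedBall_zero_iff]
    exact hB x hx
  have hcomp : IsCompact P := Metric.isCompact_of_isClosed_isBounded hclosed hbdd
  set l : (Fin d → ℝ) →L[ℝ] ℝ := ∑ j, (e j) • (ContinuousLinearMap.proj j : (Fin d → ℝ) →L[ℝ] ℝ)
    with hl
  have hlx : ∀ x : Fin d → ℝ, l x = ∑ j, e j * x j := by
    intro x; simp [hl]
  have hexp : IsExposed ℝ P (l.toExposed P) := ContinuousLinearMap.toExposed.isExposed
  have hne : (l.toExposed P).Nonempty := by
    obtain ⟨x, hxP, hx⟩ := hcomp.exists_isMaxOn ⟨y, hy⟩ l.continuous.continuousOn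
    exact ⟨x, hxP, fun z hz => hx hz⟩
  have hcompF : IsCompact (l.toExposed P) := hexp.isCompact hcomp
  obtain ⟨x, hx⟩ := hcompF.extremePoints_nonempty hne
  have hxP : x ∈ P.extremePoints ℝ := hexp.isExtreme.extremePoints_subset_extremePoints hx
  refine ⟨x, hxP.1, span_tight_of_extreme a hxP, ?_⟩
  have := hx.1.2 y hy
  rwa [hlx, hlx] at this

end Pool.Agent.Run7.h961
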