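import Mathlib
import Pool.Agent.Run7.h961.Chain
import Pool.Agent.Run7.h961.Vertex
import Pool.Agent.Run7.h961.Simple

set_option autoImplicit false

namespace Pool.Agent.Run7.h961

open scoped RealInnerProductSpace

/-- The vertex graph of `{x : ⟨a_i, x⟩ ≤ 1}`. -/
noncomputable def vgraph {n d : ℕ} (a : Fin n → Fin d → ℝ) :
    SimpleGraph {x : Fin d → ℝ //
      (∀ i, ∑ j, a i j * x j ≤ 1) ∧
      Submodule.span ℝ (a '' {i | ∑ j, a i j * x j = 1}) = ⊤} :=
  SimpleGraph.fromRel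
    (fun (u v : {x : Fin d → ℝ //
        (∀ i, ∑ j, a i j * x j ≤ 1) ∧
        Submodule.span ℝ (a '' {i | ∑ j, a i j * x j = 1}) = ⊤}) =>
      Module.finrank ℝ
        (Submodule.span ℝ
          (a '' {i | ∑ j, a i j * u.1 j = 1 ∧ ∑ j, a i j * v.1 j = 1}))
        = d - 1)

lemma inner_toLp {d : ℕ} (a x : Fin d → ℝ) :
    ⟪(WithLp.toLp 2 a : EuclideanSpace ℝ (Fin d)), (WithLp.toLp 2 x : EuclideanSpace ℝ (Fin d))⟫
      = ∑ j, a j * x j := by
  simp [PiLp.inner_apply, mul_comm]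

lemma norm_toLp_sq {d : ℕ} (x : Fin d → ℝ) :
    ‖(WithLp.toLp 2 x : EuclideanSpace ℝ (Fin d))‖ ^ 2 = ∑ j, x j ^ 2 := by
  rw [EuclideanSpace.norm_sq_eq]
  simp

/-- Deterministic lower bound for the diameter. -/
theorem det_bound {n d : ℕ} (hd : 2 ≤ d) (a : Fin n → Fin d → ℝ) {R r : ℝ} (hR0 : 0 < R)
    (hr : 0 < r) (hR : ∀ i, ∑ j, a i j ^ 2 ≤ R ^ 2)
    (hx : ∀ x : Fin d → ℝ, (∀ i, ∑ j, a i j * x j ≤ 1) → (∑ j, x j ^ 2) * r ^ 2 ≤ 1)
    (hgood : ∀ (b : Fin d → Fin n) (j : Fin n), (∀ k, b k ≠ j) → a ∉ badSet b j)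
    {l : ℝ} (hl : ∀ L : ℕ, r * ((d : ℝ) - 1) ≤ Real.sqrt (2 * R * (R - r)) * (L + (d - 1)) → l ≤ L) :
    ENNReal.ofReal l ≤ ((vgraph a).ediam : ENNReal) := by
  classical
  have hxn : ∀ x : Fin d → ℝ, (∀ i, ∑ j, a i j * x j ≤ 1) →
      ‖(WithLp.toLp 2 x : EuclideanSpace ℝ (Fin d))‖ * r ≤ 1 := by
    intro x h
    have h1 := hx x h
    rw [← norm_toLp_sq, ← mul_pow] at h1
    have h2 : 0 ≤ ‖(WithLp.toLp 2 x : EuclideanSpace ℝ (Fin d))‖ * r := by positivity
    nlinarith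
  have hRn : ∀ i, ‖(WithLp.toLp 2 (a i) : EuclideanSpace ℝ (Fin d))‖ ≤ R := by
    intro i
    have h1 := hR i
    rw [← norm_toLp_sq] at h1
    exact (sq_le_sq₀ (norm_nonneg _) hR0.le).mp h1
  have hB : ∀ x : Fin d → ℝ, (∀ i, ∑ j, a i j * x j ≤ 1) → ‖x‖ ≤ 1 / r := by
    intro x h
    have h1 := hxn x h
    have h2 : ‖x‖ ≤ ‖(WithLp.toLp 2 x : EuclideanSpace ℝ (Fin d))‖ := by
      rw [pi_norm_le_iff_of_nonneg (norm_nonneg _)]
      intro j
      exact PiLp.norm_apply_le (WithLp.toLp 2 x : EuclideanSpace ℝ (Fin d)) j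
    rw [le_div_iff₀ hr]
    nlinarith
  set j0 : Fin d := ⟨0, by omega⟩ with hj0
  set e : Fin d → ℝ := Pi.single j0 1 with he
  have he1 : ∀ x : Fin d → ℝ, ∑ j, e j * x j = x j0 := by
    intro x
    simp [he, Pi.single_apply]
  have he2 : ∀ x : Fin d → ℝ, ∑ j, x j * e j = x j0 := by
    intro x
    simp [he, Pi.single_apply]
  have hcoord : ∀ i, |a i j0| ≤ R := by
    intro i
    have h1 : ‖a i j0‖ ≤ ‖(WithLp.toLp 2 (a i) : EuclideanSpace ℝ (Fin d))‖ :=
      PiLp.norm_apply_le (WithLp.toLp 2 (a i) : EuclideanSpace ℝ (Fin d)) j0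
    rw [Real.norm_eq_abs] at h1
    exact h1.trans (hRn i)
  have hfe : ∀ s : ℝ, |s| ≤ 1 / R → ∀ i, ∑ j, a i j * (s * e j) ≤ 1 := by
    intro s hs i
    have h1 : ∑ j, a i j * (s * e j) = s * a i j0 := by
      rw [← he2 (a i), Finset.mul_sum]
      refine Finset.sum_congr rfl fun j _ => ?_
      ring
    rw [h1]
    calc s * a i j0 ≤ |s * a i j0| := le_abs_self _
      _ = |s| * |a i j0| := abs_mul _ _
      _ ≤ 1 / R * R := mul_le_mul hs (hcoord i) (abs_nonneg _) (by positivity)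
      _ = 1 := by field_simp
  have habs : |1 / R| ≤ 1 / R := by rw [abs_of_pos (by positivity)]
  have habs' : |-(1 / R)| ≤ 1 / R := by rw [abs_neg, abs_of_pos (by positivity)]
  obtain ⟨xv, hv1, hv2, hv3⟩ := exists_vertex a hB e (fun j => 1 / R * e j) (hfe _ habs)
  obtain ⟨xw, hw1, hw2, hw3⟩ := exists_vertex a hB (fun j => -e j) (fun j => -(1 / R) * e j)
    (hfe _ habs')
  have hv4 : 1 / R ≤ xv j0 := by
    have h1 : ∑ j, e j * (1 / R * e j) = 1 / R := by
      rw [he1 (fun j => 1 / R * e j)]; simp [he]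
    rw [h1, he1] at hv3
    exact hv3
  have hw4 : xw j0 ≤ -(1 / R) := by
    have h1 : ∑ j, (-e j) * (-(1 / R) * e j) = 1 / R := by
      have : ∀ j, (-e j) * (-(1 / R) * e j) = e j * (1 / R * e j) := fun j => by ring
      simp_rw [this]
      rw [he1 (fun j => 1 / R * e j)]; simp [he]
    have h2 : ∑ j, (-e j) * xw j = - xw j0 := by
      have : ∀ j, (-e j) * xw j = -(e j * xw j) := fun j => by ring
      simp_rw [this]
      rw [Finset.sum_neg_distrib, he1]
    rw [h1, h2] at hw3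
    linarith
  set V : {x : Fin d → ℝ //
      (∀ i, ∑ j, a i j * x j ≤ 1) ∧
      Submodule.span ℝ (a '' {i | ∑ j, a i j * x j = 1}) = ⊤} := ⟨xv, hv1, hv2⟩ with hV
  set W : {x : Fin d → ℝ //
      (∀ i, ∑ j, a i j * x j ≤ 1) ∧
      Submodule.span ℝ (a '' {i | ∑ j, a i j * x j = 1}) = ⊤} := ⟨xw, hw1, hw2⟩ with hW
  have hle : (vgraph a).edist V W ≤ (vgraph a).ediam := SimpleGraph.edist_le_ediam
  have hle2 : (((vgraph a).edist V W : ℕ∞) : ENNReal) ≤ ((vgraph a).ediam : ENNReal) := by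
    exact_mod_cast hle
  refine le_trans ?_ hle2
  by_cases htop : (vgraph a).edist V W = ⊤
  · rw [htop]; simp
  obtain ⟨p, hp⟩ := SimpleGraph.exists_walk_of_edist_ne_top htop
  rw [← hp]
  have key : l ≤ (p.length : ℝ) := by
    apply hl
    set x : ℕ → EuclideanSpace ℝ (Fin d) := fun k => WithLp.toLp 2 ((p.getVert k).1) with hxdef
    set T : ℕ → Finset (Fin n) := fun k =>
      Finset.univ.filter fun i => ∑ j, a i j * (p.getVert k).1 j = 1 with hTdef
    refine chain_length (fun i => (WithLp.toLp 2 (a i) : EuclideanSpace ℝ (Fin d))) x T hd hr hR0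
      hRn ?_ ?_ ?_ ?_ (WithLp.toLp 2 e) ?_ ?_ ?_
    · intro k _
      exact hxn _ (p.getVert k).2.1
    · intro k _ i hi
      simp only [hTdef, Finset.mem_filter, Finset.mem_univ, true_and] at hi
      rw [hxdef]
      simp only
      rw [inner_toLp]
      exact hi
    · intro k _
      exact card_tight_of_good a hgood (p.getVert k).2.2
    · intro k hk
      have hadj := p.adj_getVert_succ hk
      unfold vgraph at hadj
      rw [SimpleGraph.fromRel_adj] at hadj
      have hfr : Module.finrank ℝ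
          (Submodule.span ℝ
            (a '' {i | ∑ j, a i j * (p.getVert k).1 j = 1 ∧ ∑ j, a i j * (p.getVert (k + 1)).1 j = 1}))
          = d - 1 := by
        rcases hadj.2 with h | h
        · exact h
        · have : {i | ∑ j, a i j * (p.getVert k).1 j = 1 ∧ ∑ j, a i j * (p.getVert (k + 1)).1 j = 1}
              = {i | ∑ j, a i j * (p.getVert (k + 1)).1 j = 1 ∧ ∑ j, a i j * (p.getVert k).1 j = 1} := by
            ext i
            exact and_comm
          rw [this]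
          exact h
      have hset : {i | ∑ j, a i j * (p.getVert k).1 j = 1 ∧ ∑ j, a i j * (p.getVert (k + 1)).1 j = 1}
          = ((T k ∩ T (k + 1) : Finset (Fin n)) : Set (Fin n)) := by
        ext i
        simp [hTdef]
      rw [hset, ← Finset.coe_image] at hfr
      have h1 := finrank_span_finset_le_card (R := ℝ) ((T k ∩ T (k + 1)).image a)
      have h2 : ((T k ∩ T (k + 1)).image a).card ≤ (T k ∩ T (k + 1)).card := Finset.card_image_le
      rw [Set.finrank] at h1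
      omega
    · have h1 : ‖(WithLp.toLp 2 e : EuclideanSpace ℝ (Fin d))‖ ^ 2 = 1 := by
        rw [norm_toLp_sq]
        have : ∀ j, e j ^ 2 = e j * e j := fun j => by ring
        simp_rw [this]
        rw [he1]; simp [he]
      have h2 : 0 ≤ ‖(WithLp.toLp 2 e : EuclideanSpace ℝ (Fin d))‖ := norm_nonneg _
      nlinarith
    · rw [hxdef]
      simp only [SimpleGraph.Walk.getVert_zero]
      rw [inner_toLp, he1]
      exact hv4
    · rw [hxdef]
      simp only [SimpleGraph.Walk.getVert_length]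
      rw [inner_toLp, he1]
      exact hw4
  calc ENNReal.ofReal l ≤ ENNReal.ofReal (p.length : ℝ) := ENNReal.ofReal_le_ofReal key
    _ = (((p.length : ℕ) : ℕ∞) : ENNReal) := by simp
    
end Pool.Agent.Run7.h961
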