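import Mathlib
import Pool.Agent.Run7.h961.DetBound

set_option autoImplicit false

namespace Pool.Agent.Run7.h961

open scoped RealInnerProductSpace

/-- Rounding towards zero on the grid of mesh `1/M`. -/
lemma grid_round {M : ℕ} (hM : 0 < M) {t : ℝ} (ht : |t| ≤ 1) :
    ∃ z : Fin (2 * M + 1), |((z : ℕ) : ℝ) / M - 1| ≤ |t| ∧ |((z : ℕ) : ℝ) / M - 1 - t| ≤ 1 / M := by
  have hM0 : (0 : ℝ) < M := by exact_mod_cast hM
  set k : ℕ := ⌊M * |t|⌋₊ with hk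
  have hk1 : (k : ℝ) ≤ M * |t| := Nat.floor_le (by positivity)
  have hk2 : M * |t| < k + 1 := Nat.lt_floor_add_one _
  have hkM : k ≤ M := by
    have : (k : ℝ) ≤ M := hk1.trans (by nlinarith)
    exact_mod_cast this
  have hkt : (k : ℝ) / M ≤ |t| := by rw [div_le_iff₀ hM0]; linarith
  have hkt2 : |t| - (k : ℝ) / M ≤ 1 / M := by
    rw [sub_le_iff_le_add, ← add_div, le_div_iff₀ hM0]; linarith
  by_cases h0 : 0 ≤ t
  · refine ⟨⟨M + k, by omega⟩, ?_, ?_⟩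
    · have : (((M + k : ℕ) : ℕ) : ℝ) / M - 1 = (k : ℝ) / M := by push_cast; field_simp; ring
      rw [this, abs_of_nonneg (by positivity)]
      exact hkt
    · have : (((M + k : ℕ) : ℕ) : ℝ) / M - 1 - t = (k : ℝ) / M - t := by push_cast; field_simp; ring
      rw [this]
      rw [abs_of_nonneg h0] at hkt hkt2
      rw [abs_le]
      have : (0 : ℝ) ≤ 1 / M := by positivity
      constructor <;> linarith
  · push Not at h0
    refine ⟨⟨M - k, by omega⟩, ?_, ?_⟩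
    · have : (((M - k : ℕ) : ℕ) : ℝ) / M - 1 = -((k : ℝ) / M) := by
        rw [Nat.cast_sub hkM]; field_simp; ring
      rw [this, abs_neg, abs_of_nonneg (by positivity)]
      exact hkt
    · have : (((M - k : ℕ) : ℕ) : ℝ) / M - 1 - t = -((k : ℝ) / M) - t := by
        rw [Nat.cast_sub hkM]; field_simp; ring
      rw [this]
      rw [abs_of_neg h0] at hkt hkt2
      rw [abs_le]
      have : (0 : ℝ) ≤ 1 / M := by positivity
      constructor <;> linarith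

/-- The grid point attached to an index. -/
noncomputable def gpt {d : ℕ} (M : ℕ) (z : Fin d → Fin (2 * M + 1)) : Fin d → ℝ :=
  fun j => ((z j : ℕ) : ℝ) / M - 1

/-- Deterministic inner-radius estimate. -/
lemma inner_radius {n d M : ℕ} (hd : 2 ≤ d) (hM : 0 < M) (a : Fin n → Fin d → ℝ) {R τ δ : ℝ}
    (hR0 : 0 < R) (hτ : 0 ≤ τ) (hδ1 : δ < 1) (hδ : Real.sqrt d / M ≤ δ)
    (hR : ∀ i, ∑ j, a i j ^ 2 ≤ R ^ 2)
    (hnet : ∀ z : Fin d → Fin (2 * M + 1), gpt M z ≠ 0 → ∑ j, gpt M z j ^ 2 ≤ 1 →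
      ∃ i, ∑ j, gpt M z j ^ 2 + τ * Real.sqrt (∑ j, gpt M z j ^ 2) ≤ ∑ j, a i j * gpt M z j)
    (hpos : 0 ≤ 1 - 2 * δ + τ * (1 - δ) - R * δ)
    (x : Fin d → ℝ) (hx : ∀ i, ∑ j, a i j * x j ≤ 1) :
    (∑ j, x j ^ 2) * (1 - 2 * δ + τ * (1 - δ) - R * δ) ^ 2 ≤ 1 := by
  have hM0 : (0 : ℝ) < M := by exact_mod_cast hM
  by_cases hx0 : ∑ j, x j ^ 2 = 0
  · rw [hx0]; simp
  have hxpos : 0 < ∑ j, x j ^ 2 :=
    lt_of_le_of_ne (Finset.sum_nonneg fun k _ => sq_nonneg (x k)) (Ne.symm hx0)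
  set N : ℝ := Real.sqrt (∑ j, x j ^ 2) with hN
  have hNpos : 0 < N := Real.sqrt_pos.mpr hxpos
  have hN2 : N ^ 2 = ∑ j, x j ^ 2 := Real.sq_sqrt hxpos.le
  set θ : Fin d → ℝ := fun j => x j / N with hθ
  have hθ1 : ∑ j, θ j ^ 2 = 1 := by
    have : ∀ j, θ j ^ 2 = x j ^ 2 / N ^ 2 := fun j => by simp [hθ, div_pow]
    simp_rw [this]
    rw [← Finset.sum_div, hN2, div_self hx0]
  have hθj : ∀ j, |θ j| ≤ 1 := by
    intro j
    have h1 : θ j ^ 2 ≤ ∑ j, θ j ^ 2 :=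
      Finset.single_le_sum (f := fun j => θ j ^ 2) (fun k _ => sq_nonneg (θ k)) (Finset.mem_univ j)
    rw [hθ1] at h1
    exact (sq_le_one_iff_abs_le_one _).mp h1
  choose z hz1 hz2 using fun j => grid_round hM (hθj j)
  set p : Fin d → ℝ := gpt M z with hp
  have hpj : ∀ j, |p j| ≤ |θ j| := fun j => by simpa [hp, gpt] using hz1 j
  have hpθ : ∀ j, |p j - θ j| ≤ 1 / M := fun j => by simpa [hp, gpt] using hz2 j
  set δ' : ℝ := Real.sqrt (∑ j, (θ j - p j) ^ 2) with hδ'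
  have hδ'le : δ' ≤ δ := by
    refine le_trans ?_ hδ
    rw [hδ', Real.sqrt_le_left (by positivity), div_pow, Real.sq_sqrt (by positivity)]
    calc ∑ j, (θ j - p j) ^ 2 ≤ ∑ _j : Fin d, (1 / (M : ℝ)) ^ 2 := by
          refine Finset.sum_le_sum fun j _ => ?_
          have h1 : |θ j - p j| ≤ 1 / M := by rw [abs_sub_comm]; exact hpθ j
          calc (θ j - p j) ^ 2 = |θ j - p j| ^ 2 := (sq_abs _).symm
            _ ≤ (1 / (M : ℝ)) ^ 2 := pow_le_pow_left₀ (abs_nonneg _) h1 2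
      _ = d / (M : ℝ) ^ 2 := by
          rw [Finset.sum_const, Finset.card_univ, Fintype.card_fin, nsmul_eq_mul]; ring
  set S : ℝ := ∑ j, p j ^ 2 with hS
  have hS1 : S ≤ 1 := by
    rw [← hθ1]
    refine Finset.sum_le_sum fun j _ => ?_
    exact sq_le_sq.mpr (hpj j)
  -- norms in EuclideanSpace
  have hnp : ‖(WithLp.toLp 2 p : EuclideanSpace ℝ (Fin d))‖ = Real.sqrt S := by
    rw [hS, ← norm_toLp_sq, Real.sqrt_sq (norm_nonneg _)]
  have hnθ : ‖(WithLp.toLp 2 θ : EuclideanSpace ℝ (Fin d))‖ = 1 := by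
    have := norm_toLp_sq θ
    rw [hθ1] at this
    nlinarith [norm_nonneg (WithLp.toLp 2 θ : EuclideanSpace ℝ (Fin d))]
  have hnd : ‖(WithLp.toLp 2 θ : EuclideanSpace ℝ (Fin d)) - WithLp.toLp 2 p‖ = δ' := by
    rw [← WithLp.toLp_sub, hδ']
    rw [← Real.sqrt_sq (norm_nonneg (WithLp.toLp 2 (θ - p) : EuclideanSpace ℝ (Fin d))), norm_toLp_sq]
    rfl
  have hsS : 1 - δ ≤ Real.sqrt S := by
    have h1 : ‖(WithLp.toLp 2 θ : EuclideanSpace ℝ (Fin d))‖ - ‖(WithLp.toLp 2 p : EuclideanSpace ℝ (Fin d))‖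
        ≤ ‖(WithLp.toLp 2 θ : EuclideanSpace ℝ (Fin d)) - WithLp.toLp 2 p‖ := norm_sub_norm_le _ _
    rw [hnθ, hnp, hnd] at h1
    linarith
  have hδ0 : 0 ≤ δ := le_trans (Real.sqrt_nonneg _) hδ'le
  have hSpos : 0 < Real.sqrt S := by linarith
  have hp0 : p ≠ 0 := by
    intro h
    have : S = 0 := by rw [hS, h]; simp
    rw [this] at hSpos
    simp at hSpos
  obtain ⟨i, hi⟩ := hnet z hp0 hS1
  have hSsq : Real.sqrt S ^ 2 = S := Real.sq_sqrt (Finset.sum_nonneg fun k _ => sq_nonneg (p k))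
  have hSlow : 1 - 2 * δ ≤ S := by nlinarith
  have hlow : 1 - 2 * δ + τ * (1 - δ) ≤ ∑ j, a i j * p j := by
    have h1 : τ * (1 - δ) ≤ τ * Real.sqrt S := mul_le_mul_of_nonneg_left hsS hτ
    linarith [hi]
  have hRn : ‖(WithLp.toLp 2 (a i) : EuclideanSpace ℝ (Fin d))‖ ≤ R := by
    have h1 := hR i
    rw [← norm_toLp_sq] at h1
    exact (sq_le_sq₀ (norm_nonneg _) hR0.le).mp h1
  have hdiff : |∑ j, a i j * (p j - θ j)| ≤ R * δ := by
    have h1 := abs_real_inner_le_norm (WithLp.toLp 2 (a i) : EuclideanSpace ℝ (Fin d))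
      (WithLp.toLp 2 (p - θ) : EuclideanSpace ℝ (Fin d))
    rw [inner_toLp] at h1
    have h2 : ‖(WithLp.toLp 2 (p - θ) : EuclideanSpace ℝ (Fin d))‖ = δ' := by
      rw [← hnd, WithLp.toLp_sub, norm_sub_rev]
    rw [h2] at h1
    refine h1.trans ?_
    exact mul_le_mul hRn hδ'le (Real.sqrt_nonneg _) hR0.le
  have hθlow : 1 - 2 * δ + τ * (1 - δ) - R * δ ≤ ∑ j, a i j * θ j := by
    have h1 : ∑ j, a i j * (p j - θ j) = ∑ j, a i j * p j - ∑ j, a i j * θ j := by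
      rw [← Finset.sum_sub_distrib]
      refine Finset.sum_congr rfl fun j _ => ?_
      ring
    have h2 := (abs_le.mp hdiff).2
    rw [h1] at h2
    linarith
  have hxθ : ∑ j, a i j * x j = N * ∑ j, a i j * θ j := by
    rw [Finset.mul_sum]
    refine Finset.sum_congr rfl fun j _ => ?_
    simp only [hθ]; field_simp
  have h3 : N * (1 - 2 * δ + τ * (1 - δ) - R * δ) ≤ 1 := by
    calc N * (1 - 2 * δ + τ * (1 - δ) - R * δ) ≤ N * ∑ j, a i j * θ j :=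
          mul_le_mul_of_nonneg_left hθlow hNpos.le
      _ = ∑ j, a i j * x j := hxθ.symm
      _ ≤ 1 := hx i
  rw [← hN2, ← mul_pow]
  have h4 : 0 ≤ N * (1 - 2 * δ + τ * (1 - δ) - R * δ) := mul_nonneg hNpos.le hpos
  nlinarith

end Pool.Agent.Run7.h961
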