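import Mathlib
import Pool.Agent.Run7.h961.Gauss

set_option autoImplicit false
open MeasureTheory ProbabilityTheory

namespace Pool.Agent.Run7.h961

/-- Completing the square. -/
lemma pdf_mul_exp {c R : ℝ} {v : NNReal} (hv : v ≠ 0) (hR : 1 ≤ R) (x : ℝ) :
    gaussianPDFReal c v x * Real.exp ((1 - 1 / R) / (2 * v) * x ^ 2)
      = (Real.sqrt R * Real.exp ((R - 1) / (2 * v) * c ^ 2))
        * gaussianPDFReal (c * R) (v * Real.toNNReal R) x := by
  have hR0 : 0 < R := by linarith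
  have hv0 : (0 : ℝ) < v := by positivity
  unfold gaussianPDFReal
  have hRR : ((v * Real.toNNReal R : NNReal) : ℝ) = v * R := by
    simp [Real.coe_toNNReal R hR0.le]
  rw [hRR]
  have h1 : Real.sqrt (2 * Real.pi * (v * R)) = Real.sqrt (2 * Real.pi * v) * Real.sqrt R := by
    rw [← Real.sqrt_mul (by positivity)]
    ring_nf
  rw [h1, mul_inv]
  have hsR : Real.sqrt R ≠ 0 := by positivity
  have hsv : Real.sqrt (2 * Real.pi * v) ≠ 0 := by positivity
  have h2 : Real.exp (-(x - c) ^ 2 / (2 * v)) * Real.exp ((1 - 1 / R) / (2 * v) * x ^ 2)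
      = Real.exp ((R - 1) / (2 * v) * c ^ 2) * Real.exp (-(x - c * R) ^ 2 / (2 * (v * R))) := by
    rw [← Real.exp_add, ← Real.exp_add]
    congr 1
    field_simp
    ring
  calc (Real.sqrt (2 * Real.pi * v))⁻¹ * Real.exp (-(x - c) ^ 2 / (2 * v))
        * Real.exp ((1 - 1 / R) / (2 * v) * x ^ 2)
      = (Real.sqrt (2 * Real.pi * v))⁻¹ * (Real.exp (-(x - c) ^ 2 / (2 * v))
        * Real.exp ((1 - 1 / R) / (2 * v) * x ^ 2)) := by ring
    _ = _ := by
        rw [h2]
        field_simp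

lemma integral_exp_sq {c R : ℝ} {v : NNReal} (hv : v ≠ 0) (hR : 1 ≤ R) :
    ∫ x, Real.exp ((1 - 1 / R) / (2 * v) * x ^ 2) ∂(gaussianReal c v)
      = Real.sqrt R * Real.exp ((R - 1) / (2 * v) * c ^ 2) := by
  rw [integral_gaussianReal_eq_integral_smul hv]
  simp_rw [smul_eq_mul, pdf_mul_exp hv hR]
  rw [integral_const_mul, integral_gaussianPDFReal_eq_one, mul_one]
  have hR0 : 0 < R := by linarith
  have : Real.toNNReal R ≠ 0 := by simpa using hR0
  exact mul_ne_zero hv this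

/-- Upper tail of the norm of a Gaussian vector with centre in the unit ball. -/
lemma norm_tail {d : ℕ} (c : Fin d → ℝ) {v : NNReal} (hv : v ≠ 0) {R : ℝ} (hR : 1 ≤ R)
    (hc : ∑ j, c j ^ 2 ≤ 1) :
    (gpi c v).real {a | R ^ 2 ≤ ∑ j, a j ^ 2}
      ≤ Real.sqrt R ^ d * Real.exp (-(R - 1) ^ 2 / (2 * v)) := by
  have hR0 : 0 < R := by linarith
  have hv0 : (0 : ℝ) < v := by positivity
  set κ : ℝ := (1 - 1 / R) / (2 * v) with hκ
  have hκ0 : 0 ≤ κ := by
    rw [hκ]
    apply div_nonneg _ (by positivity)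
    rw [sub_nonneg, div_le_one hR0]; exact hR
  have hprod : ∀ a : Fin d → ℝ, Real.exp (κ * ∑ j, a j ^ 2) = ∏ j, Real.exp (κ * a j ^ 2) := by
    intro a
    rw [Finset.mul_sum, Real.exp_sum]
  have hint1 : ∀ j : Fin d, Integrable (fun x : ℝ => Real.exp (κ * x ^ 2)) (gaussianReal (c j) v) := by
    intro j
    apply Integrable.of_integral_ne_zero
    rw [hκ, integral_exp_sq hv hR]
    positivity
  have hint : Integrable (fun a : Fin d → ℝ => Real.exp (κ * ∑ j, a j ^ 2)) (gpi c v) := by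
    simp_rw [hprod]
    unfold gpi
    exact Integrable.fintype_prod (f := fun (_ : Fin d) (x : ℝ) => Real.exp (κ * x ^ 2)) hint1
  have hval : ∫ a, Real.exp (κ * ∑ j, a j ^ 2) ∂(gpi c v)
      = ∏ j : Fin d, (Real.sqrt R * Real.exp ((R - 1) / (2 * v) * c j ^ 2)) := by
    simp_rw [hprod]
    unfold gpi
    rw [integral_fintype_prod_eq_prod (f := fun (_ : Fin d) (x : ℝ) => Real.exp (κ * x ^ 2))]
    refine Finset.prod_congr rfl fun j _ => ?_
    rw [hκ, integral_exp_sq hv hR]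
  have hmk := mul_meas_ge_le_integral_of_nonneg (μ := gpi c v)
    (f := fun a : Fin d → ℝ => Real.exp (κ * ∑ j, a j ^ 2))
    (Filter.Eventually.of_forall fun a => (Real.exp_pos _).le) hint (Real.exp (κ * R ^ 2))
  have hset : {a : Fin d → ℝ | R ^ 2 ≤ ∑ j, a j ^ 2}
      ⊆ {a : Fin d → ℝ | Real.exp (κ * R ^ 2) ≤ Real.exp (κ * ∑ j, a j ^ 2)} := by
    intro a ha
    simp only [Set.mem_ofPred_eq] at ha ⊢
    exact Real.exp_le_exp.mpr (mul_le_mul_of_nonneg_left ha hκ0)
  have h1 : (gpi c v).real {a | R ^ 2 ≤ ∑ j, a j ^ 2}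
      ≤ (gpi c v).real {a : Fin d → ℝ | Real.exp (κ * R ^ 2) ≤ Real.exp (κ * ∑ j, a j ^ 2)} :=
    measureReal_mono hset
  have h2 : (gpi c v).real {a : Fin d → ℝ | Real.exp (κ * R ^ 2) ≤ Real.exp (κ * ∑ j, a j ^ 2)}
      ≤ Real.exp (-(κ * R ^ 2)) * ∏ j : Fin d, (Real.sqrt R * Real.exp ((R - 1) / (2 * v) * c j ^ 2)) := by
    rw [← hval, Real.exp_neg]
    rw [← div_eq_inv_mul, le_div_iff₀ (Real.exp_pos _), mul_comm]
    exact hmk
  refine h1.trans (h2.trans ?_)
  rw [Finset.prod_mul_distrib, Finset.prod_const, Finset.card_univ, Fintype.card_fin,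
    ← Real.exp_sum, ← Finset.mul_sum]
  have h3 : Real.exp (-(κ * R ^ 2)) * (Real.sqrt R ^ d * Real.exp ((R - 1) / (2 * v) * ∑ j, c j ^ 2))
      = Real.sqrt R ^ d * Real.exp ((R - 1) / (2 * v) * (∑ j, c j ^ 2) - κ * R ^ 2) := by
    rw [Real.exp_sub, Real.exp_neg]; ring
  rw [h3]
  refine mul_le_mul_of_nonneg_left (Real.exp_le_exp.mpr ?_) (by positivity)
  have h4 : (R - 1) / (2 * v) * (∑ j, c j ^ 2) ≤ (R - 1) / (2 * v) * 1 := by
    apply mul_le_mul_of_nonneg_left hc
    apply div_nonneg (by linarith) (by positivity)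
  have h5 : (R - 1) / (2 * v) * 1 - κ * R ^ 2 = -(R - 1) ^ 2 / (2 * v) := by
    rw [hκ]; field_simp; ring
  linarith

/-- Lower bound for the upper tail of a one-dimensional Gaussian. -/
lemma tail_lower (m : ℝ) {s t : ℝ} (hs : 0 < s) (ht : 0 ≤ t) :
    Real.exp (-t ^ 2 / 2) / (7 * (t + 1))
      ≤ (gaussianReal m (Real.toNNReal (s ^ 2))).real (Set.Ici (m + s * t)) := by
  have hv : Real.toNNReal (s ^ 2) ≠ 0 := by
    simp only [ne_eq, Real.toNNReal_eq_zero, not_le]; positivity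
  have hvr : ((Real.toNNReal (s ^ 2) : NNReal) : ℝ) = s ^ 2 := Real.coe_toNNReal _ (by positivity)
  set b : ℝ := s / (t + 1) with hb
  have hb0 : 0 < b := by positivity
  have hsub : Set.Icc (m + s * t) (m + s * t + b) ⊆ Set.Ici (m + s * t) := fun x hx => hx.1
  have h1 : (gaussianReal m (Real.toNNReal (s ^ 2))).real (Set.Icc (m + s * t) (m + s * t + b))
      ≤ (gaussianReal m (Real.toNNReal (s ^ 2))).real (Set.Ici (m + s * t)) := measureReal_mono hsub
  refine le_trans ?_ h1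
  have h2 : (gaussianReal m (Real.toNNReal (s ^ 2))).real (Set.Icc (m + s * t) (m + s * t + b))
      = ∫ x in Set.Icc (m + s * t) (m + s * t + b), gaussianPDFReal m (Real.toNNReal (s ^ 2)) x := by
    rw [Measure.real, gaussianReal_apply_eq_integral m hv, ENNReal.toReal_ofReal]
    exact setIntegral_nonneg measurableSet_Icc fun x _ => gaussianPDFReal_nonneg _ _ _
  rw [h2]
  set q : ℝ := (Real.sqrt (2 * Real.pi * s ^ 2))⁻¹ * Real.exp (-t ^ 2 / 2 - 1) with hq
  have hlow : ∀ x ∈ Set.Icc (m + s * t) (m + s * t + b),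
      q ≤ gaussianPDFReal m (Real.toNNReal (s ^ 2)) x := by
    intro x hx
    unfold gaussianPDFReal
    rw [hvr, hq]
    apply mul_le_mul_of_nonneg_left _ (by positivity)
    apply Real.exp_le_exp.mpr
    have hx1 : s * t ≤ x - m := by linarith [hx.1]
    have hx2 : x - m ≤ s * t + b := by linarith [hx.2]
    have hx0 : 0 ≤ x - m := le_trans (by positivity) hx1
    have h3 : (x - m) ^ 2 ≤ (s * t + b) ^ 2 := by
      apply pow_le_pow_left₀ hx0 hx2
    have h4 : (s * t + b) ^ 2 ≤ s ^ 2 * (t ^ 2 + 2) := by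
      have : s * t + b = s * (t + 1 / (t + 1)) := by rw [hb]; field_simp
      rw [this, mul_pow]
      apply mul_le_mul_of_nonneg_left _ (by positivity)
      have h5 : (t + 1 / (t + 1)) ^ 2 = t ^ 2 + 2 * t / (t + 1) + 1 / (t + 1) ^ 2 := by
        field_simp; ring
      rw [h5]
      have h6 : 2 * t / (t + 1) = 2 - 2 / (t + 1) := by field_simp; ring
      have h7 : 1 / (t + 1) ^ 2 ≤ 1 / (t + 1) := by
        apply one_div_le_one_div_of_le (by positivity)
        nlinarith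
      have h8 : 0 ≤ 1 / (t + 1) := by positivity
      have h9 : 2 / (t + 1) = 2 * (1 / (t + 1)) := by ring
      rw [h6, h9]
      linarith
    have h10 : (x - m) ^ 2 / (2 * s ^ 2) ≤ t ^ 2 / 2 + 1 := by
      rw [div_le_iff₀ (by positivity)]
      nlinarith
    have h11 : -(x - m) ^ 2 / (2 * s ^ 2) = -((x - m) ^ 2 / (2 * s ^ 2)) := by ring
    rw [h11]
    linarith
  have h3 : q * b ≤ ∫ x in Set.Icc (m + s * t) (m + s * t + b),
      gaussianPDFReal m (Real.toNNReal (s ^ 2)) x := by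
    have h4 : ∫ x in Set.Icc (m + s * t) (m + s * t + b), (fun _ => q) x = q * b := by
      rw [setIntegral_const]
      simp [hb0.le, mul_comm]
    rw [← h4]
    apply setIntegral_mono_on
    · exact integrableOn_const (by simp)
    · exact (integrable_gaussianPDFReal _ _).integrableOn
    · exact measurableSet_Icc
    · exact hlow
  refine le_trans ?_ h3
  rw [hq, hb]
  have hsq : Real.sqrt (2 * Real.pi * s ^ 2) = Real.sqrt (2 * Real.pi) * s := by
    rw [Real.sqrt_mul (by positivity), Real.sqrt_sq hs.le]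
  rw [hsq, sub_eq_add_neg, Real.exp_add]
  have hpi : Real.sqrt (2 * Real.pi) * Real.exp 1 ≤ 7 := by
    have h1 : Real.sqrt (2 * Real.pi) ≤ 2.51 := by
      rw [Real.sqrt_le_left (by norm_num)]
      nlinarith [Real.pi_lt_d2]
    have h2 : Real.exp 1 ≤ 2.72 := by linarith [Real.exp_one_lt_d9]
    calc Real.sqrt (2 * Real.pi) * Real.exp 1 ≤ 2.51 * 2.72 :=
          mul_le_mul h1 h2 (Real.exp_pos _).le (by norm_num)
      _ ≤ 7 := by norm_num
  have hexp : Real.exp (-1) = (Real.exp 1)⁻¹ := Real.exp_neg 1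
  rw [hexp]
  have h5 : (Real.sqrt (2 * Real.pi) * s)⁻¹ * (Real.exp (-t ^ 2 / 2) * (Real.exp 1)⁻¹) * (s / (t + 1))
      = Real.exp (-t ^ 2 / 2) / ((Real.sqrt (2 * Real.pi) * Real.exp 1) * (t + 1)) := by
    field_simp
  rw [h5]
  apply div_le_div_of_nonneg_left (Real.exp_pos _).le (by positivity)
  apply mul_le_mul_of_nonneg_right hpi (by positivity)

end Pool.Agent.Run7.h961
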