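import Mathlib
import Pool.Agent.Run7.h961.Net
import Pool.Agent.Run7.h961.Tails

set_option autoImplicit false
open MeasureTheory ProbabilityTheory

namespace Pool.Agent.Run7.h961

/-- Cyclic assignment of the rows to grid points. -/
noncomputable def asg {n : ℕ} (d M : ℕ) (i : Fin n) : Fin d → Fin (2 * M + 1) :=
  finFunctionFinEquiv.symm ⟨i.val % (2 * M + 1) ^ d, Nat.mod_lt _ (by positivity)⟩

open Classical in
/-- The centres: grid points of the unit ball, each used many times. -/
noncomputable def cen {n : ℕ} (d M : ℕ) (i : Fin n) : Fin d → ℝ :=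
  if ∑ j, gpt M (asg d M i) j ^ 2 ≤ 1 then gpt M (asg d M i) else 0

lemma cen_le {n : ℕ} (d M : ℕ) (i : Fin n) : ∑ j, cen d M i j ^ 2 ≤ 1 := by
  unfold cen
  split_ifs with h
  · exact h
  · simp

open Classical in
/-- Each grid point is used at least `n / K` times. -/
lemma fiber_card (n d M : ℕ) (z : Fin d → Fin (2 * M + 1)) :
    n / (2 * M + 1) ^ d ≤ (Finset.univ.filter fun i : Fin n => asg d M i = z).card := by
  set K : ℕ := (2 * M + 1) ^ d with hK
  have hKpos : 0 < K := by positivity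
  set w : Fin K := finFunctionFinEquiv z with hw
  have hlt : ∀ k : Fin (n / K), K * k.val + w.val < n := by
    intro k
    have h1 : K * k.val + w.val < K * (k.val + 1) := by
      rw [mul_add, mul_one]; have := w.2; omega
    have h2 : K * (k.val + 1) ≤ K * (n / K) := Nat.mul_le_mul_left _ k.2
    have h3 : K * (n / K) ≤ n := Nat.mul_div_le _ _
    omega
  let f : Fin (n / K) → Fin n := fun k => ⟨K * k.val + w.val, hlt k⟩
  have hf : Function.Injective f := by
    intro k k' h
    simp only [f, Fin.mk.injEq] at h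
    have : K * k.val = K * k'.val := by omega
    exact Fin.ext (Nat.eq_of_mul_eq_mul_left hKpos this)
  calc n / K = (Finset.univ.image f).card := by
        rw [Finset.card_image_of_injective _ hf]; simp
    _ ≤ _ := by
        apply Finset.card_le_card
        intro i hi
        simp only [Finset.mem_image, Finset.mem_univ, true_and] at hi
        obtain ⟨k, rfl⟩ := hi
        simp only [Finset.mem_filter, Finset.mem_univ, true_and]
        unfold asg
        rw [Equiv.symm_apply_eq]
        ext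
        simp only [f]
        rw [Nat.mul_add_mod, ← hw]
        exact Nat.mod_eq_of_lt w.2

open Classical in
/-- Probability that all rows attached to one grid point stay low. -/
lemma fail_prob {n d M : ℕ} {σ t : ℝ} (hσ : 0 < σ) (ht : 0 ≤ t) (z : Fin d → Fin (2 * M + 1))
    (hz0 : gpt M z ≠ 0) (hz1 : ∑ j, gpt M z j ^ 2 ≤ 1) :
    (Measure.pi (fun i : Fin n => gpi (cen d M i) (Real.toNNReal (σ ^ 2)))).real
      {a | ∀ i, asg d M i = z →
        ∑ j, a i j * gpt M z j < ∑ j, gpt M z j ^ 2 + σ * t * Real.sqrt (∑ j, gpt M z j ^ 2)}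
      ≤ Real.exp (-(Real.exp (-t ^ 2 / 2) / (7 * (t + 1)) * ((n / (2 * M + 1) ^ d : ℕ) : ℝ))) := by
  set p : Fin d → ℝ := gpt M z with hp
  set S : ℝ := ∑ j, p j ^ 2 with hS
  have hSpos : 0 < S := by
    rcases Function.ne_iff.mp hz0 with ⟨j, hj⟩
    have h1 : p j ^ 2 ≤ ∑ j, p j ^ 2 :=
      Finset.single_le_sum (f := fun j => p j ^ 2) (fun k _ => sq_nonneg (p k)) (Finset.mem_univ j)
    have h2 : 0 < p j ^ 2 := by
      have : p j ≠ 0 := hj
      positivity
    linarith
  have hsq : 0 < Real.sqrt S := Real.sqrt_pos.mpr hSpos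
  set p0 : ℝ := Real.exp (-t ^ 2 / 2) / (7 * (t + 1)) with hp0
  set thr : ℝ := S + σ * t * Real.sqrt S with hthr
  set A : Set (Fin d → ℝ) := {w | ∑ j, w j * p j < thr} with hA
  have hmeas : Measurable (fun w : Fin d → ℝ => ∑ j, w j * p j) := by fun_prop
  have hAm : MeasurableSet A := hmeas measurableSet_Iio
  -- one row
  have hone : (gpi p (Real.toNNReal (σ ^ 2))).real A ≤ 1 - p0 := by
    have hAc : Aᶜ = (fun w : Fin d → ℝ => ∑ j, w j * p j) ⁻¹' (Set.Ici thr) := by
      ext w; simp [hA]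
    have h1 : (gpi p (Real.toNNReal (σ ^ 2))).real Aᶜ =
        (gaussianReal S (Real.toNNReal ((σ * Real.sqrt S) ^ 2))).real (Set.Ici (S + σ * Real.sqrt S * t)) := by
      rw [hAc, Measure.real, ← Measure.map_apply hmeas measurableSet_Ici, gpi_map_dot, Measure.real]
      congr 3
      · rw [hS]; refine Finset.sum_congr rfl fun j _ => ?_; ring
      · rw [mul_pow, Real.sq_sqrt hSpos.le, Real.toNNReal_mul (by positivity)]
      · rw [hthr]; congr 1; ring
    have h2 := tail_lower S (s := σ * Real.sqrt S) (t := t) (by positivity) ht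
    have h3 := probReal_add_probReal_compl (μ := gpi p (Real.toNNReal (σ ^ 2))) hAm
    rw [h1] at h3
    linarith
  set F : Finset (Fin n) := Finset.univ.filter fun i : Fin n => asg d M i = z with hF
  set B : Fin n → Set (Fin d → ℝ) := fun i => if i ∈ F then A else Set.univ with hB
  have hset : {a : Fin n → Fin d → ℝ | ∀ i, asg d M i = z → ∑ j, a i j * p j < thr}
      = Set.univ.pi B := by
    ext a
    simp only [Set.mem_ofPred_eq, Set.mem_pi, Set.mem_univ, true_imp_iff, hB]
    constructor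
    · intro h i
      by_cases hi : i ∈ F
      · rw [if_pos hi]
        exact h i (by simpa [hF] using hi)
      · rw [if_neg hi]; trivial
    · intro h i hi
      have := h i
      rw [if_pos (by simp [hF, hi])] at this
      exact this
  rw [hset, Measure.real, Measure.pi_pi, ENNReal.toReal_prod]
  have hcen : ∀ i ∈ F, cen d M i = p := by
    intro i hi
    have : asg d M i = z := by simpa [hF] using hi
    unfold cen
    rw [this, if_pos hz1]
  have hp01 : 0 ≤ 1 - p0 := by
    refine le_trans ?_ hone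
    exact measureReal_nonneg
  have hfac : ∀ i ∈ (Finset.univ : Finset (Fin n)),
      ((gpi (cen d M i) (Real.toNNReal (σ ^ 2))) (B i)).toReal ≤ if i ∈ F then (1 - p0) else 1 := by
    intro i _
    by_cases hi : i ∈ F
    · rw [if_pos hi, hcen i hi]
      simp only [hB, if_pos hi]
      exact hone
    · rw [if_neg hi]
      simp only [hB, if_neg hi, measure_univ, ENNReal.toReal_one, le_refl]
  calc ∏ i, ((gpi (cen d M i) (Real.toNNReal (σ ^ 2))) (B i)).toReal
      ≤ ∏ i, (if i ∈ F then (1 - p0) else 1) :=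
        Finset.prod_le_prod (fun i _ => ENNReal.toReal_nonneg) hfac
    _ = (1 - p0) ^ F.card := by
        rw [Finset.prod_ite]
        simp
    _ ≤ (Real.exp (-p0)) ^ F.card := by
        apply pow_le_pow_left₀ hp01
        linarith [Real.add_one_le_exp (-p0)]
    _ = Real.exp (-(p0 * F.card)) := by
        rw [← Real.exp_nat_mul]; congr 1; ring
    _ ≤ Real.exp (-(p0 * ((n / (2 * M + 1) ^ d : ℕ) : ℝ))) := by
        apply Real.exp_le_exp.mpr
        have h1 : ((n / (2 * M + 1) ^ d : ℕ) : ℝ) ≤ (F.card : ℝ) := by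
          exact_mod_cast fiber_card n d M z
        have h2 : 0 ≤ p0 := by rw [hp0]; positivity
        nlinarith

/-- Union bound: with the stated probability the three good events hold. -/
lemma good_event {n d M : ℕ} {σ t R : ℝ} (hσ : 0 < σ) (ht : 0 ≤ t) (hR : 1 ≤ R) :
    ∃ Gd : Set (Fin n → Fin d → ℝ), MeasurableSet Gd ∧
      1 - ((2 * M + 1 : ℝ) ^ d * Real.exp (-(Real.exp (-t ^ 2 / 2) / (7 * (t + 1)) *
            ((n / (2 * M + 1) ^ d : ℕ) : ℝ)))
          + n * (Real.sqrt R ^ d * Real.exp (-(R - 1) ^ 2 / (2 * σ ^ 2))))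
        ≤ (Measure.pi (fun i : Fin n => gpi (cen d M i) (Real.toNNReal (σ ^ 2)))).real Gd ∧
      ∀ a ∈ Gd,
        (∀ i, ∑ j, a i j ^ 2 ≤ R ^ 2) ∧
        (∀ z : Fin d → Fin (2 * M + 1), gpt M z ≠ 0 → ∑ j, gpt M z j ^ 2 ≤ 1 →
          ∃ i, ∑ j, gpt M z j ^ 2 + σ * t * Real.sqrt (∑ j, gpt M z j ^ 2) ≤ ∑ j, a i j * gpt M z j) ∧
        (∀ (b : Fin d → Fin n) (j : Fin n), (∀ k, b k ≠ j) → a ∉ badSet b j) := by
  classical
  set μ := Measure.pi (fun i : Fin n => gpi (cen d M i) (Real.toNNReal (σ ^ 2))) with hμ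
  have hv : Real.toNNReal (σ ^ 2) ≠ 0 := by
    simp only [ne_eq, Real.toNNReal_eq_zero, not_le]; positivity
  have hvr : ((Real.toNNReal (σ ^ 2) : NNReal) : ℝ) = σ ^ 2 := Real.coe_toNNReal _ (by positivity)
  -- bad events
  set N1 : Set (Fin n → Fin d → ℝ) := ⋃ z ∈ (Finset.univ.filter fun z : Fin d → Fin (2 * M + 1) =>
      gpt M z ≠ 0 ∧ ∑ j, gpt M z j ^ 2 ≤ 1),
      {a | ∀ i, asg d M i = z →
        ∑ j, a i j * gpt M z j < ∑ j, gpt M z j ^ 2 + σ * t * Real.sqrt (∑ j, gpt M z j ^ 2)} with hN1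
  set N2 : Set (Fin n → Fin d → ℝ) := ⋃ i ∈ (Finset.univ : Finset (Fin n)),
      {a | R ^ 2 ≤ ∑ j, a i j ^ 2} with hN2
  set N3 : Set (Fin n → Fin d → ℝ) := ⋃ q ∈ (Finset.univ.filter fun q : (Fin d → Fin n) × Fin n =>
      ∀ k, q.1 k ≠ q.2), badSet q.1 q.2 with hN3
  have m1 : MeasurableSet N1 := by
    apply Finset.measurableSet_biUnion
    intro z _
    have : {a : Fin n → Fin d → ℝ | ∀ i, asg d M i = z →
        ∑ j, a i j * gpt M z j < ∑ j, gpt M z j ^ 2 + σ * t * Real.sqrt (∑ j, gpt M z j ^ 2)}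
        = ⋂ i, {a | asg d M i = z →
        ∑ j, a i j * gpt M z j < ∑ j, gpt M z j ^ 2 + σ * t * Real.sqrt (∑ j, gpt M z j ^ 2)} := by
      ext a; simp
    rw [this]
    apply MeasurableSet.iInter
    intro i
    by_cases hi : asg d M i = z
    · simp only [hi, true_imp_iff]
      exact measurableSet_lt (by fun_prop) measurable_const
    · simp [hi]
  have m2 : MeasurableSet N2 := by
    apply Finset.measurableSet_biUnion
    intro i _
    exact measurableSet_le measurable_const (by fun_prop)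
  have m3 : MeasurableSet N3 := by
    apply Finset.measurableSet_biUnion
    intro q _
    exact badSet_measurable _ _
  have b1 : μ.real N1 ≤ (2 * M + 1 : ℝ) ^ d * Real.exp (-(Real.exp (-t ^ 2 / 2) / (7 * (t + 1)) *
            ((n / (2 * M + 1) ^ d : ℕ) : ℝ))) := by
    refine (measureReal_biUnion_finset_le _ _).trans ?_
    refine (Finset.sum_le_card_nsmul _ _
      (Real.exp (-(Real.exp (-t ^ 2 / 2) / (7 * (t + 1)) * ((n / (2 * M + 1) ^ d : ℕ) : ℝ))))
      fun z hz => ?_).trans ?_
    · simp only [Finset.mem_filter, Finset.mem_univ, true_and] at hz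
      exact fail_prob hσ ht z hz.1 hz.2
    · rw [nsmul_eq_mul]
      apply mul_le_mul_of_nonneg_right _ (Real.exp_pos _).le
      have h1 : ((Finset.univ.filter fun z : Fin d → Fin (2 * M + 1) =>
          gpt M z ≠ 0 ∧ ∑ j, gpt M z j ^ 2 ≤ 1)).card ≤ (2 * M + 1) ^ d := by
        refine (Finset.card_filter_le _ _).trans ?_
        simp
      exact_mod_cast h1
  have b2 : μ.real N2 ≤ n * (Real.sqrt R ^ d * Real.exp (-(R - 1) ^ 2 / (2 * σ ^ 2))) := by
    refine (measureReal_biUnion_finset_le _ _).trans ?_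
    refine (Finset.sum_le_card_nsmul _ _
      (Real.sqrt R ^ d * Real.exp (-(R - 1) ^ 2 / (2 * σ ^ 2))) fun i _ => ?_).trans ?_
    · have h1 : {a : Fin n → Fin d → ℝ | R ^ 2 ≤ ∑ j, a i j ^ 2}
          = (fun a : Fin n → Fin d → ℝ => a i) ⁻¹' {w : Fin d → ℝ | R ^ 2 ≤ ∑ j, w j ^ 2} := by
        ext a; simp
      have hms : MeasurableSet {w : Fin d → ℝ | R ^ 2 ≤ ∑ j, w j ^ 2} :=
        measurableSet_le measurable_const (by fun_prop)
      have h2 : μ.real {a : Fin n → Fin d → ℝ | R ^ 2 ≤ ∑ j, a i j ^ 2}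
          = (gpi (cen d M i) (Real.toNNReal (σ ^ 2))).real {w : Fin d → ℝ | R ^ 2 ≤ ∑ j, w j ^ 2} := by
        rw [h1, Measure.real, Measure.real, hμ]
        congr 1
        exact (measurePreserving_eval (fun i : Fin n => gpi (cen d M i) (Real.toNNReal (σ ^ 2))) i).measure_preimage
          hms.nullMeasurableSet
      rw [h2]
      have h3 := norm_tail (cen d M i) hv hR (cen_le d M i)
      rw [hvr] at h3
      exact h3
    · rw [nsmul_eq_mul]; simp
  have b3 : μ N3 = 0 := by
    rw [hN3]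
    refine (measure_biUnion_null_iff (Finset.countable_toSet _)).mpr ?_
    intro q hq
    simp only [Finset.coe_filter, Finset.mem_univ, true_and, Set.mem_ofPred_eq] at hq
    exact badSet_null _ hv _ _ hq
  refine ⟨(N1 ∪ N2 ∪ N3)ᶜ, ((m1.union m2).union m3).compl, ?_, ?_⟩
  · have h1 := probReal_add_probReal_compl (μ := μ) ((m1.union m2).union m3)
    have h2 : μ.real (N1 ∪ N2 ∪ N3) ≤ μ.real (N1 ∪ N2) + μ.real N3 := measureReal_union_le _ _
    have h3 : μ.real (N1 ∪ N2) ≤ μ.real N1 + μ.real N2 := measureReal_union_le _ _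
    have h4 : μ.real N3 = 0 := by rw [Measure.real, b3]; simp
    linarith
  · intro a ha
    simp only [Set.mem_compl_iff, Set.mem_union, not_or] at ha
    obtain ⟨⟨ha1, ha2⟩, ha3⟩ := ha
    refine ⟨?_, ?_, ?_⟩
    · intro i
      by_contra hlt
      push Not at hlt
      apply ha2
      simp only [hN2, Set.mem_iUnion, Finset.mem_univ, exists_prop, true_and]
      exact ⟨i, hlt.le⟩
    · intro z hz0 hz1
      by_contra hno
      push Not at hno
      apply ha1
      simp only [hN1, Set.mem_iUnion, Finset.mem_filter, Finset.mem_univ, true_and, exists_prop]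
      exact ⟨z, ⟨hz0, hz1⟩, fun i _ => hno i⟩
    · intro b j hbj hmem
      apply ha3
      simp only [hN3, Set.mem_iUnion, Finset.mem_filter, Finset.mem_univ, true_and, exists_prop]
      exact ⟨(b, j), hbj, hmem⟩

end Pool.Agent.Run7.h961
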