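import Mathlib
import Pool.Agent.Run7.h961.Prob
import Pool.Agent.Run7.h961.Num

set_option autoImplicit false
open MeasureTheory ProbabilityTheory

namespace Pool.Agent.Run7.h961

/-- From a good event to a lower bound for the expectation. -/
lemma lintegral_lower {α : Type*} {m : MeasurableSpace α} (μ : Measure α) [IsProbabilityMeasure μ]
    (f : α → ENNReal) (G : Set α) (hG : MeasurableSet G) {l : ℝ} (hl : 0 ≤ l)
    (hp : 0.9 ≤ μ.real G) (hf : ∀ a ∈ G, ENNReal.ofReal l ≤ f a) :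
    ENNReal.ofReal (0.9 * l) ≤ ∫⁻ a, f a ∂μ := by
  have h1 : ∫⁻ a, G.indicator (fun _ => ENNReal.ofReal l) a ∂μ ≤ ∫⁻ a, f a ∂μ := by
    apply lintegral_mono
    intro a
    by_cases ha : a ∈ G
    · rw [Set.indicator_of_mem ha]; exact hf a ha
    · rw [Set.indicator_of_notMem ha]; exact bot_le
  rw [lintegral_indicator_const hG] at h1
  refine le_trans ?_ h1
  have h2 : ENNReal.ofReal 0.9 ≤ μ G := by
    rw [← ENNReal.ofReal_toReal (measure_ne_top μ G)]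
    exact ENNReal.ofReal_le_ofReal hp
  rw [mul_comm, ENNReal.ofReal_mul hl]
  gcongr

theorem main_bound {n d : ℕ} (hn : 2 ≤ n) (hd : 2 ≤ d) {σ : ℝ} (hσ : 0 < σ)
    (hσ1 : σ ≤ 1 / (6 * Real.sqrt ((d : ℝ) * Real.log (n : ℝ))))
    (hn2 : 18 * (d : ℝ) * Real.log (1 / σ) ≤ Real.log n) :
    ENNReal.ofReal (Real.sqrt (d * Real.sqrt (Real.log n) / (σ * Real.log (1 / σ))) / 20)
      ≤ ∫⁻ a, ((vgraph a).ediam : ENNReal)
        ∂(Measure.pi (fun i : Fin n => gpi (cen d ⌈1 / (4 * σ ^ 2)⌉₊ i) (Real.toNNReal (σ ^ 2)))) := by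
  obtain ⟨h36, hσ2, hl4⟩ := numerics hn hd hσ hσ1 hn2
  have hn' : (2 : ℝ) ≤ n := by exact_mod_cast hn
  have hd' : (2 : ℝ) ≤ d := by exact_mod_cast hd
  obtain ⟨L, hL⟩ : ∃ L, L = Real.log n := ⟨_, rfl⟩
  obtain ⟨l, hℓ⟩ : ∃ l, l = Real.log (1 / σ) := ⟨_, rfl⟩
  rw [← hL, ← hℓ] at hn2
  rw [← hL] at h36
  rw [← hℓ] at hl4
  rw [← hL, ← hℓ]
  obtain ⟨D, hD⟩ : ∃ D : ℝ, D = 2 * d * l := ⟨_, rfl⟩
  have hLD : 9 * D ≤ L := by rw [hD]; linarith
  have hLpos : 0 < L := by nlinarith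
  obtain ⟨T, hT⟩ : ∃ T : ℝ, T = Real.sqrt (2 * L) := ⟨_, rfl⟩
  have hT2 : T ^ 2 = 2 * L := by rw [hT]; exact Real.sq_sqrt (by linarith)
  have hTpos : 0 < T := by rw [hT]; exact Real.sqrt_pos.mpr (by linarith)
  have hexpl : Real.exp l = 1 / σ := by rw [hℓ, Real.exp_log (by positivity)]
  have hexpL : Real.exp L = n := by rw [hL, Real.exp_log (by linarith)]
  obtain ⟨w, hw⟩ : ∃ w : ℝ, w = Real.sqrt d := ⟨_, rfl⟩
  have hw2 : w ^ 2 = d := by rw [hw]; exact Real.sq_sqrt (by linarith)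
  have hwpos : 0 < w := by rw [hw]; exact Real.sqrt_pos.mpr (by linarith)
  obtain ⟨hD16, hD8, hD4l, hT16, h18, h6, hσwT⟩ := sizes hd' hσ hl4 hD hLD hTpos hT2 h36 hwpos hw2
  obtain ⟨hM0, hK, hδ⟩ := grid_size (d := d) hσ hD hTpos hwpos hσ2 hexpl hσwT
  obtain ⟨M, hM⟩ : ∃ M : ℕ, M = ⌈1 / (4 * σ ^ 2)⌉₊ := ⟨_, rfl⟩
  rw [← hM] at hM0 hK hδ
  rw [← hM]
  obtain ⟨ht0, htT, hs2T, ht2, hs2⟩ := thresholds hD16 hT16 hT2 h18
  obtain ⟨t, ht⟩ : ∃ t : ℝ, t = T - 3 * D / T := ⟨_, rfl⟩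
  obtain ⟨s, hs⟩ : ∃ s : ℝ, s = T + D / T := ⟨_, rfl⟩
  rw [← ht] at ht0 htT ht2
  rw [← hs] at hs2T hs2
  have htpos : 0 ≤ t := by linarith
  have hspos : 0 < s := by rw [hs]; have : 0 < D / T := by positivity
                           linarith
  obtain ⟨R, hR⟩ : ∃ R : ℝ, R = 1 + σ * s := ⟨_, rfl⟩
  obtain ⟨δ, hδd⟩ : ∃ δ : ℝ, δ = w / M := ⟨_, rfl⟩
  obtain ⟨r, hr⟩ : ∃ r : ℝ, r = 1 - 2 * δ + σ * t * (1 - δ) - R * δ := ⟨_, rfl⟩
  obtain ⟨Q, hQ⟩ : ∃ Q : ℝ, Q = σ * d * l / T := ⟨_, rfl⟩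
  have hM0' : (0 : ℝ) < M := by exact_mod_cast hM0
  have hδ0 : 0 ≤ δ := by rw [hδd]; positivity
  rw [← hδd] at hδ
  obtain ⟨hQpos, hσt0, hR1, hδ1, hr1, hgap, hQ3⟩ :=
    radii hd' hσ hl4 hD hD16 hT16 h18 h6 ht hs hR hδ0 hδ hr hQ
  obtain ⟨Gd, hGm, hGp, hG⟩ := good_event (n := n) (d := d) (M := M) hσ htpos hR1
  have hσ62 : 62 * σ ≤ 1 := by nlinarith
  have hq : Real.exp (L - D) / 2 ≤ ((n / (2 * M + 1) ^ d : ℕ) : ℝ) := by
    obtain ⟨K, hKdef⟩ : ∃ K : ℕ, K = (2 * M + 1) ^ d := ⟨_, rfl⟩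
    rw [← hKdef]
    have hKr : (K : ℝ) = (2 * M + 1 : ℝ) ^ d := by rw [hKdef]; push_cast; ring
    have hKpos : (0 : ℝ) < K := by rw [hKr]; positivity
    have h1 : (n : ℝ) / K - 1 ≤ ((n / K : ℕ) : ℝ) := by
      have := Nat.lt_div_mul_add (a := n) (b := K) (by exact_mod_cast hKpos)
      have h2 : (n : ℝ) < (n / K : ℕ) * K + K := by exact_mod_cast this
      rw [div_sub_one hKpos.ne', div_le_iff₀ hKpos]
      linarith
    have h2 : Real.exp (L - D) ≤ n / K := by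
      rw [Real.exp_sub, hexpL]
      apply div_le_div_of_nonneg_left (by linarith) hKpos
      rw [hKr]; exact hK
    have h3 : 2 ≤ Real.exp (L - D) := by
      have := Real.add_one_le_exp (L - D)
      linarith
    linarith
  have hf1 := fail_one hσ hσ62 hD16 hD4l htT htpos h6 hexpl ht2 hK hq
  have hf2 := fail_two (n := n) hσ hd' hD8 hspos hs2T h6 hexpL hs2 hR
  have hGp9 : 0.9 ≤ (Measure.pi (fun i : Fin n => gpi (cen d M i) (Real.toNNReal (σ ^ 2)))).real Gd := by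
    refine le_trans ?_ hGp
    linarith
  have hηpos : 0 < Real.sqrt (23 * Q) := Real.sqrt_pos.mpr (by positivity)
  have hη3 : Real.sqrt (23 * Q) ≤ 1 / 3 := by
    rw [Real.sqrt_le_left (by norm_num)]; exact hQ3
  have hη : Real.sqrt (2 * R * (R - r)) ≤ Real.sqrt (23 * Q) := Real.sqrt_le_sqrt hgap
  have hdet : ∀ a ∈ Gd, ENNReal.ofReal ((d : ℝ) / (3 * Real.sqrt (23 * Q)))
      ≤ ((vgraph a).ediam : ENNReal) := by
    intro a ha
    obtain ⟨g1, g2, g3⟩ := hG a ha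
    refine det_bound hd a (R := R) (r := r) (by linarith) (by linarith) g1 ?_ g3 ?_
    · intro x hx
      rw [hr]
      refine inner_radius hd hM0 a (by linarith) hσt0 hδ1 ?_ g1 g2 ?_ x hx
      · rw [← hw, hδd]
      · rw [← hr]; linarith
    · intro Len hLen
      have hLen0 : (0 : ℝ) ≤ Len := Nat.cast_nonneg _
      have h2 : (d : ℝ) - 1 ≤ r * ((d : ℝ) - 1) := by
        have := mul_le_mul_of_nonneg_right hr1 (show (0 : ℝ) ≤ (d : ℝ) - 1 by linarith)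
        linarith
      have h3 : Real.sqrt (2 * R * (R - r)) * ((Len : ℝ) + (d - 1))
          ≤ Real.sqrt (23 * Q) * (Len + (d - 1)) :=
        mul_le_mul_of_nonneg_right hη (by linarith)
      rw [div_le_iff₀ (by positivity)]
      have h4 : Real.sqrt (23 * Q) * ((d : ℝ) - 1) ≤ 1 / 3 * ((d : ℝ) - 1) :=
        mul_le_mul_of_nonneg_right hη3 (by linarith)
      linarith
  refine le_trans (ENNReal.ofReal_le_ofReal (constant hd' hσ hl4 hTpos hLpos hT2 hQ)) ?_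
  exact lintegral_lower _ _ Gd hGm (by positivity) hGp9 hdet

end Pool.Agent.Run7.h961
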