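import Pool.Agent.Run7.h852.NW.Stm

set_option autoImplicit false

/-! Project NB, part FIN: the criterion `Rec` holds at late times. -/

namespace Run7.h961.NB

open MeasureTheory Set Filter Topology
open Pool.Agent.Y516.NW (E3 Cfg Surf acc gr Mot NonW Free Z IsFl vel)
open Run7.h852.NW

variable {N : ℕ}

theorem cm_der (m : Fin N → ℝ) (σ : Fin N → Fin N) (u : ℝ → Cfg N) (u' : Cfg N) (t : ℝ)
    (h : ∀ i, HasDerivAt (fun s => u s i) (u' i) t) (i : Fin N) :
    HasDerivAt (fun s => cm m σ (u s) i) (cm m σ u' i) t := by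
  unfold cm
  exact (((h i).const_smul (m i)).add ((h (σ i)).const_smul (m (σ i)))).const_smul
    ((m i + m (σ i))⁻¹)

theorem cm_smul (m : Fin N → ℝ) (σ : Fin N → Fin N) (c : ℝ) (u : Cfg N) (i : Fin N) :
    cm m σ (fun k => c • u k) i = c • cm m σ u i := by
  unfold cm
  rw [smul_comm (m i) c, smul_comm (m (σ i)) c, ← smul_add, smul_comm]

/-- a vector function with small derivative relative to `τ` is `o(τ)` -/
theorem small (c τ : ℝ → ℝ) (hτ : ∀ t, HasDerivAt τ (c t) t) (hc : ∀ t, 0 < c t)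
    (hinf : Tendsto τ atTop atTop) (f g : ℝ → E3) (hf : ∀ t, HasDerivAt f (c t • g t) t)
    (hg : Tendsto g atTop (𝓝 0)) :
    Tendsto (fun t => (τ t)⁻¹ • f t) atTop (𝓝 0) := by
  rw [Metric.tendsto_atTop]
  intro ε hε
  obtain ⟨s, hs⟩ := (Metric.tendsto_atTop.mp hg) (ε / 4) (by positivity)
  have key : ∀ t, s ≤ t → ‖f t‖ ≤ ‖f s‖ + ε / 4 * (τ t - τ s) := by
    intro t ht
    have := image_norm_le_of_norm_deriv_right_le_deriv_boundary (f := f)
      (f' := fun x => c x • g x) (a := s) (b := t)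
      (fun x _ => (hf x).continuousAt.continuousWithinAt)
      (fun x _ => (hf x).hasDerivWithinAt)
      (B := fun x => ‖f s‖ + ε / 4 * (τ x - τ s)) (B' := fun x => ε / 4 * c x)
      (by simp)
      (fun x => (((hτ x).sub_const _).const_mul _).const_add _)
      (fun x hx => by
        have h1 := hs x hx.1
        rw [dist_zero_right] at h1
        rw [norm_smul, Real.norm_of_nonneg (hc x).le, mul_comm]
        exact mul_le_mul_of_nonneg_right h1.le (hc x).le)
    exact this ⟨ht, le_rfl⟩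
  obtain ⟨t1, ht1⟩ := (tendsto_atTop.mp hinf (max 1 ((‖f s‖ + ε / 4 * |τ s|) * (4 / ε)))).exists_forall_of_atTop
  refine ⟨max s t1, fun t ht => ?_⟩
  have h2 := key t ((le_max_left _ _).trans ht)
  have h3 := ht1 t ((le_max_right _ _).trans ht)
  have h4 : 1 ≤ τ t := (le_max_left _ _).trans h3
  have h5 : (‖f s‖ + ε / 4 * |τ s|) * (4 / ε) ≤ τ t := (le_max_right _ _).trans h3
  have h6 : ‖f s‖ + ε / 4 * |τ s| ≤ ε / 4 * τ t := by
    have : (‖f s‖ + ε / 4 * |τ s|) = ((‖f s‖ + ε / 4 * |τ s|) * (4 / ε)) * (ε / 4) := by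
      field_simp
    calc (‖f s‖ + ε / 4 * |τ s|) = ((‖f s‖ + ε / 4 * |τ s|) * (4 / ε)) * (ε / 4) := this
      _ ≤ τ t * (ε / 4) := mul_le_mul_of_nonneg_right h5 (by positivity)
      _ = ε / 4 * τ t := mul_comm _ _
  have h7 : -τ s ≤ |τ s| := neg_le_abs _
  have h8 : ‖f t‖ ≤ ε / 2 * τ t := by nlinarith
  have hpos : 0 < τ t := by linarith
  rw [dist_zero_right, norm_smul, norm_inv, Real.norm_of_nonneg hpos.le,
    inv_mul_lt_iff₀ hpos]
  nlinarith

theorem t_FIN : FinStm := by
  intro N m hm σ hσ q v c τ E hmot hinf V hV hlim hpe C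
  -- the constant `w`
  have hw : ∃ w > 0, ∀ i j, P σ i j → 2 * w ≤ ‖V i - V j‖ := by
    classical
    have h1 : ∀ p : Fin N × Fin N, ∃ w > 0, P σ p.1 p.2 → 2 * w ≤ ‖V p.1 - V p.2‖ := by
      intro p
      by_cases hp : P σ p.1 p.2
      · refine ⟨‖V p.1 - V p.2‖ / 2, ?_, fun _ => by linarith⟩
        have := norm_pos_iff.mpr (sub_ne_zero.mpr (hV _ _ hp))
        positivity
      · exact ⟨1, one_pos, fun h => absurd h hp⟩
    choose f hf1 hf2 using h1
    rcases isEmpty_or_nonempty (Fin N × Fin N) with he | hne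
    · exact ⟨1, one_pos, fun i j _ => (he.false (i, j)).elim⟩
    · obtain ⟨p0, hp0⟩ := Finite.exists_min f
      exact ⟨f p0, hf1 p0, fun i j h => by
        have a1 := hp0 (i, j)
        have a2 := hf2 (i, j) h
        simp only at a2
        linarith⟩
  obtain ⟨w, hw0, hw⟩ := hw
  -- the constant `κ`
  have hκ : ∃ κ > 0, ∀ k, σ k ≠ k → ∀ᶠ t in atTop, pe m σ (q t) (v t) k ≤ -κ := by
    classical
    have h1 : ∀ k : Fin N, ∃ κ > 0, σ k ≠ k → ∀ᶠ t in atTop, pe m σ (q t) (v t) k ≤ -κ := by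
      intro k
      by_cases hk : σ k ≠ k
      · obtain ⟨κ, h0, h1⟩ := hpe k hk
        exact ⟨κ, h0, fun _ => h1⟩
      · exact ⟨1, one_pos, fun h => absurd h hk⟩
    choose f hf1 hf2 using h1
    rcases isEmpty_or_nonempty (Fin N) with he | hne
    · exact ⟨1, one_pos, fun i => (he.false i).elim⟩
    · obtain ⟨p0, hp0⟩ := Finite.exists_min f
      refine ⟨f p0, hf1 p0, fun k hk => ?_⟩
      filter_upwards [hf2 k hk] with t ht
      have := hp0 k
      linarith
  obtain ⟨κ, hκ0, hκ⟩ := hκ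
  -- the constant `δ`
  obtain ⟨δ, hδ0, hδ1, hδ2⟩ : ∃ δ > 0, C ≤ w ^ 2 * δ ∧ C ≤ κ * δ := by
    refine ⟨1 + |C| / w ^ 2 + |C| / κ, by positivity, ?_, ?_⟩
    · have h1 : w ^ 2 * (|C| / w ^ 2) = |C| := by field_simp
      have h2 : 0 ≤ w ^ 2 * (1 + |C| / κ) := by positivity
      have h3 := le_abs_self C
      nlinarith
    · have h1 : κ * (|C| / κ) = |C| := by field_simp
      have h2 : 0 ≤ κ * (1 + |C| / w ^ 2) := by positivity
      have h3 := le_abs_self C
      nlinarith
  -- relative position of two clusters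
  have hX : ∀ i j, Tendsto (fun t => (τ t)⁻¹ • (cm m σ (q t) i - cm m σ (q t) j)) atTop
      (𝓝 (V i - V j)) := by
    intro i j
    have h1 := small c τ hmot.τd hmot.cpos hinf
      (fun t => (cm m σ (q t) i - cm m σ (q t) j) - τ t • (V i - V j))
      (fun t => (cm m σ (v t) i - cm m σ (v t) j) - (V i - V j))
      (fun t => by
        have e1 := (cm_der m σ q (fun k => c t • v t k) t (hmot.qd t) i).sub
          (cm_der m σ q (fun k => c t • v t k) t (hmot.qd t) j)
        have e2 := e1.sub ((hmot.τd t).smul_const (V i - V j))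
        rw [cm_smul, cm_smul] at e2
        have e3 : c t • ((cm m σ (v t) i - cm m σ (v t) j) - (V i - V j)) =
            c t • cm m σ (v t) i - c t • cm m σ (v t) j - c t • (V i - V j) := by
          rw [smul_sub, smul_sub]
        rw [e3]
        exact e2)
      (by
        have e1 := ((hlim i).sub (hlim j)).sub_const (V i - V j)
        rwa [sub_self] at e1)
    have h2 : Tendsto (fun t => (τ t)⁻¹ • ((cm m σ (q t) i - cm m σ (q t) j) - τ t • (V i - V j))
        + (V i - V j)) atTop (𝓝 (V i - V j)) := by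
      simpa using h1.add_const (V i - V j)
    refine h2.congr' ?_
    filter_upwards [hinf.eventually_gt_atTop 0] with t ht
    rw [smul_sub, smul_smul, inv_mul_cancel₀ ht.ne', one_smul, sub_add_cancel]
  have hfar : ∀ i j, P σ i j → ∀ᶠ t in atTop, δ ≤ ‖cm m σ (q t) i - cm m σ (q t) j‖ := by
    intro i j hP
    have h1 : Tendsto (fun t => ‖(τ t)⁻¹ • (cm m σ (q t) i - cm m σ (q t) j)‖) atTop
      (𝓝 ‖V i - V j‖) := (hX i j).norm
    have h2 : ∀ᶠ t in atTop, w < ‖(τ t)⁻¹ • (cm m σ (q t) i - cm m σ (q t) j)‖ :=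
      h1.eventually_const_lt (by have := hw i j hP; linarith)
    filter_upwards [h2, hinf.eventually_gt_atTop 0, hinf.eventually_ge_atTop (δ / w)]
      with t h2 h3 h4
    rw [norm_smul, norm_inv, Real.norm_of_nonneg h3.le, lt_inv_mul_iff₀ h3] at h2
    rw [div_le_iff₀ hw0] at h4
    linarith
  have hfast : ∀ i j, P σ i j → ∀ᶠ t in atTop, w ≤ ‖cm m σ (v t) i - cm m σ (v t) j‖ := by
    intro i j hP
    have h1 : Tendsto (fun t => ‖cm m σ (v t) i - cm m σ (v t) j‖) atTop
      (𝓝 ‖V i - V j‖) := ((hlim i).sub (hlim j)).norm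
    filter_upwards [h1.eventually_const_lt (u := w) (by have := hw i j hP; linarith)] with t h
    exact h.le
  have hrec : ∀ i j, P σ i j → ∀ᶠ t in atTop,
      0 ≤ inner ℝ (cm m σ (q t) i - cm m σ (q t) j) (cm m σ (v t) i - cm m σ (v t) j) := by
    intro i j hP
    have h1 : Tendsto (fun t => inner ℝ ((τ t)⁻¹ • (cm m σ (q t) i - cm m σ (q t) j))
        (cm m σ (v t) i - cm m σ (v t) j)) atTop (𝓝 (inner ℝ (V i - V j) (V i - V j))) :=
      (hX i j).inner ((hlim i).sub (hlim j))
    have h2 : (0 : ℝ) < inner ℝ (V i - V j) (V i - V j) := by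
      have := hw i j hP
      rw [real_inner_self_eq_norm_sq]
      have : 0 < ‖V i - V j‖ := by linarith
      positivity
    filter_upwards [h1.eventually_const_lt h2, hinf.eventually_gt_atTop 0] with t h3 h4
    rw [real_inner_smul_left] at h3
    have h5 : 0 < (τ t)⁻¹ := inv_pos.mpr h4
    exact (pos_of_mul_pos_right h3 h5.le).le
  have hall : ∀ᶠ t in atTop, (∀ i j, P σ i j → δ ≤ ‖cm m σ (q t) i - cm m σ (q t) j‖) ∧
      (∀ i j, P σ i j → w ≤ ‖cm m σ (v t) i - cm m σ (v t) j‖) ∧
      (∀ i j, P σ i j →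
        0 ≤ inner ℝ (cm m σ (q t) i - cm m σ (q t) j) (cm m σ (v t) i - cm m σ (v t) j)) ∧
      (∀ k, σ k ≠ k → pe m σ (q t) (v t) k ≤ -κ) ∧ 0 ≤ t := by
    refine (Filter.Eventually.and ?_ (Filter.Eventually.and ?_ (Filter.Eventually.and ?_
      (Filter.Eventually.and ?_ (eventually_ge_atTop 0)))))
    · rw [eventually_all]; intro i; rw [eventually_all]; intro j
      by_cases hP : P σ i j
      · filter_upwards [hfar i j hP] with t ht _ using ht
      · exact Eventually.of_forall fun t h => absurd h hP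
    · rw [eventually_all]; intro i; rw [eventually_all]; intro j
      by_cases hP : P σ i j
      · filter_upwards [hfast i j hP] with t ht _ using ht
      · exact Eventually.of_forall fun t h => absurd h hP
    · rw [eventually_all]; intro i; rw [eventually_all]; intro j
      by_cases hP : P σ i j
      · filter_upwards [hrec i j hP] with t ht _ using ht
      · exact Eventually.of_forall fun t h => absurd h hP
    · rw [eventually_all]; intro k
      by_cases hk : σ k ≠ k
      · filter_upwards [hκ k hk] with t ht _ using ht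
      · exact Eventually.of_forall fun t h => absurd h hk
  obtain ⟨t, h1, h2, h3, h4, h5⟩ := hall.exists
  exact ⟨w, δ, κ, hw0, hδ0, hκ0, hδ1, hδ2, t, h5, ⟨h1, h2, h3, h4⟩⟩

end Run7.h961.NB
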